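import Pool.Agent.LibUE49.T10b

set_option autoImplicit false

namespace Pool.Agent.LibUE49

/-- The unit equation: finiteness. -/
theorem finite_sol {F : Type} [Field F] [CharZero F] {r : ℕ} (g : Fin r → Fˣ) :
    {x | IsSol g x}.Finite ∧ {x | IsSol g x}.ncard ≤ 2 ^ (28 * r + 5) := by
  have hfin : {x | IsSol g x}.Finite := by
    by_contra h
    obtain ⟨t, ht1, ht2⟩ := Set.Infinite.exists_subset_card_eq h (2 ^ (28 * r + 5) + 1)
    have := card_le g t (fun x hx => ht1 hx)
    omega
  refine ⟨hfin, ?_⟩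
  rw [Set.ncard_eq_toFinset_card _ hfin]
  exact card_le g _ (fun x hx => by simpa using hx)

end Pool.Agent.LibUE49
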