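import Mathlib

set_option autoImplicit false
open Polynomial

namespace Pool.Agent.LibUE49

/-- The length of an integer polynomial: the sum of the absolute values of its coefficients. -/
noncomputable def len (p : ℤ[X]) : ℕ := ∑ i ∈ p.support, (p.coeff i).natAbs

/-- `A_N = ∑_{m ≤ N} (-1)^m C(N+m,N) C(3N+1,N-m) X^m`, which is `(3N+1)!/(N!)^3` times
`∫_0^1 s^N (1-s)^N (1-Xs)^N ds`. -/
noncomputable def padeA (N : ℕ) : ℤ[X] :=
  ∑ m ∈ Finset.range (N + 1),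
    C ((-1) ^ m * ((N + m).choose N : ℤ) * ((3 * N + 1).choose (N - m) : ℤ)) * X ^ m

/-- `B_N = (-1)^N A_N(1-X)`. -/
noncomputable def padeB (N : ℕ) : ℤ[X] := C ((-1) ^ N) * (padeA N).comp (1 - X)

/-- `D_N = ∑_{m ≤ N} (-1)^(N-m) C(3N+1,m) C(2N-m,N) X^m`, which is `(3N+1)!/(N!)^3` times
`∫_0^1 t^N (1-t)^N (X-t)^N dt`. -/
noncomputable def padeD (N : ℕ) : ℤ[X] :=
  ∑ m ∈ Finset.range (N + 1),
    C ((-1) ^ (N - m) * ((3 * N + 1).choose m : ℤ) * ((2 * N - m).choose N : ℤ)) * X ^ m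

end Pool.Agent.LibUE49
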