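import Pool.Agent.LibUE49.T1c

set_option autoImplicit false
open Polynomial

namespace Pool.Agent.LibUE49

/-- The diagonal Pade approximants of `(1 - X)^(2N+1)`, in symmetric form. -/
theorem exists_pade : ∃ A B D : ℕ → ℤ[X],
    (∀ N, (A N).natDegree ≤ N ∧ (B N).natDegree ≤ N ∧ (D N).natDegree ≤ N) ∧
    (∀ N, len (A N) ≤ 2 ^ (6 * N + 1) ∧ len (B N) ≤ 2 ^ (6 * N + 1) ∧
      len (D N) ≤ 2 ^ (6 * N + 1)) ∧
    (∀ N, A N * X ^ (2 * N + 1) + B N * (1 - X) ^ (2 * N + 1) = D N) ∧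
    (∀ N, ∃ c : ℤ, c ≠ 0 ∧
      A N * ((1 - X) ^ 2 * B (N + 1)) - B N * (X ^ 2 * A (N + 1)) = C c * (X ^ 2 - X + 1)) := by
  refine ⟨padeA, padeB, padeD, fun N => ⟨natDegree_padeA N, natDegree_padeB N, natDegree_padeD N⟩,
    fun N => ⟨len_padeA N, len_padeB N, len_padeD N⟩, pade_identity, fun N => ⟨_, ?_, pade_det N⟩⟩
  have h1 : (3 * N + 1).choose N ≠ 0 := (Nat.choose_pos (by omega)).ne'
  have h2 : (2 * N + 2).choose (N + 1) ≠ 0 := (Nat.choose_pos (by omega)).ne'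
  refine mul_ne_zero (mul_ne_zero (pow_ne_zero _ (by norm_num)) ?_) ?_
  · exact_mod_cast h1
  · exact_mod_cast h2

end Pool.Agent.LibUE49
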