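import Mathlib

set_option autoImplicit false

namespace Pool.Agent.LibUE49

private theorem T10a_numberField (K : Type) [Field K] (inst : Algebra ℚ K)
    (h : @Algebra.FiniteType ℚ K _ _ inst) : NumberField K := by
  have hc : CharZero K := algebraRat.charZero K
  have hf : @Module.Finite ℚ K _ _ inst.toModule :=
    @finite_of_finite_type_of_isJacobsonRing ℚ K _ _ inst _ h
  have e : (DivisionRing.toRatAlgebra : Algebra ℚ K) = inst := Subsingleton.elim _ _
  subst e
  exact { to_charZero := inferInstance, to_finiteDimensional := hf }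

/-- Specialization: a finite set of nonzero elements of a field of characteristic zero survives
under some ring homomorphism from a subring containing it (and the inverses) to a number field. -/
theorem exists_specialization {F : Type} [Field F] [CharZero F] (t : Finset F)
    (ht : ∀ a ∈ t, a ≠ 0) :
    ∃ (S : Subring F) (K : Type) (_ : Field K) (_ : NumberField K) (_ : S →+* K),
      ∀ a ∈ t, a ∈ S ∧ a⁻¹ ∈ S := by
  classical
  let u : Finset F := t ∪ t.image (fun a => a⁻¹)
  let A : Subalgebra ℚ F := Algebra.adjoin ℚ (u : Set F)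
  have hft : Algebra.FiniteType ℚ A := (Subalgebra.fg_iff_finiteType A).1 ⟨u, rfl⟩
  obtain ⟨m, hm⟩ := Ideal.exists_maximal A
  have hq : Algebra.FiniteType ℚ (A ⧸ m) :=
    Algebra.FiniteType.of_surjective (Ideal.Quotient.mkₐ ℚ m) (Ideal.Quotient.mkₐ_surjective ℚ m)
  let hfield : Field (A ⧸ m) := Ideal.Quotient.field m
  refine ⟨A.toSubring, A ⧸ m, hfield, T10a_numberField (A ⧸ m) _ hq, Ideal.Quotient.mk m, ?_⟩
  intro a ha
  constructor
  · exact Algebra.subset_adjoin (by simp [u, ha])
  · exact Algebra.subset_adjoin (by
      simp only [u, Finset.coe_union, Finset.coe_image]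
      exact Or.inr ⟨a, ha, rfl⟩)

end Pool.Agent.LibUE49
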