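import Pool.Agent.LibUE49.T9
import Pool.Agent.LibUE49.T10a

set_option autoImplicit false

namespace Pool.Agent.LibUE49

/-- The unit equation over a field of characteristic zero, with a bound depending only on the
rank. -/
theorem card_le {F : Type} [Field F] [CharZero F] {r : ℕ} (g : Fin r → Fˣ)
    (s : Finset F) (hs : ∀ x ∈ s, IsSol g x) : s.card ≤ 2 ^ (28 * r + 5) := by
  classical
  let t : Finset F := (s ∪ s.image (fun x => 1 - x) ∪ Finset.univ.image (fun j => (g j : F)) ∪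
    (s ×ˢ s).image (fun P => P.1 - P.2)).filter (fun a => a ≠ 0)
  obtain ⟨S, K, _, _, φ, hφ⟩ := exists_specialization t (fun a ha => (Finset.mem_filter.mp ha).2)
  -- elements of `t` do not map to zero
  have hne : ∀ a (h : a ∈ S), a ∈ t → φ ⟨a, h⟩ ≠ 0 := by
    intro a h ha h0
    have h1 : (⟨a, h⟩ : S) * ⟨a⁻¹, (hφ a ha).2⟩ = 1 := by
      apply Subtype.ext
      exact mul_inv_cancel₀ (Finset.mem_filter.mp ha).2
    have h2 := congrArg φ h1
    rw [map_mul, h0, zero_mul, map_one] at h2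
    exact zero_ne_one h2
  have hgt : ∀ j, (g j : F) ∈ t := by
    intro j
    refine Finset.mem_filter.mpr ⟨?_, (g j).ne_zero⟩
    simp only [Finset.mem_union, Finset.mem_image, Finset.mem_univ, true_and]
    exact Or.inl (Or.inr ⟨j, rfl⟩)
  have hst : ∀ x ∈ s, x ∈ t := by
    intro x hx
    refine Finset.mem_filter.mpr ⟨?_, (hs x hx).1⟩
    simp only [Finset.mem_union]
    exact Or.inl (Or.inl (Or.inl hx))
  have hst1 : ∀ x ∈ s, 1 - x ∈ t := by
    intro x hx
    refine Finset.mem_filter.mpr ⟨?_, (hs x hx).2.1⟩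
    simp only [Finset.mem_union]
    exact Or.inl (Or.inl (Or.inr (Finset.mem_image_of_mem _ hx)))
  have hst2 : ∀ x ∈ s, ∀ y ∈ s, x ≠ y → x - y ∈ t := by
    intro x hx y hy hxy
    refine Finset.mem_filter.mpr ⟨?_, sub_ne_zero.mpr hxy⟩
    simp only [Finset.mem_union]
    refine Or.inr (Finset.mem_image.mpr ⟨(x, y), Finset.mem_product.mpr ⟨hx, hy⟩, rfl⟩)
  let G : Fin r → Sˣ := fun j =>
    ⟨⟨(g j : F), (hφ _ (hgt j)).1⟩, ⟨(g j : F)⁻¹, (hφ _ (hgt j)).2⟩,
      Subtype.ext (mul_inv_cancel₀ (g j).ne_zero), Subtype.ext (inv_mul_cancel₀ (g j).ne_zero)⟩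
  let g' : Fin r → Kˣ := fun j => Units.map φ.toMonoidHom (G j)
  have hGg : ∀ j, Units.map S.subtype.toMonoidHom (G j) = g j := by
    intro j
    apply Units.ext
    rfl
  have hprod : ∀ (a : Fin r → ℤ) (y : F) (hy : y ∈ S) (n : ℕ),
      y ^ n = ((∏ j, g j ^ a j : Fˣ) : F) →
      φ ⟨y, hy⟩ ^ n = ((∏ j, g' j ^ a j : Kˣ) : K) := by
    intro a y hy n h
    have h1 : (⟨y, hy⟩ : S) ^ n = ((∏ j, G j ^ a j : Sˣ) : S) := by
      apply Subtype.ext
      have h2 : (S.subtype.toMonoidHom ((∏ j, G j ^ a j : Sˣ) : S)) =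
          ((Units.map S.subtype.toMonoidHom (∏ j, G j ^ a j) : Fˣ) : F) := rfl
      have h3 : Units.map S.subtype.toMonoidHom (∏ j, G j ^ a j) = ∏ j, g j ^ a j := by
        rw [map_prod]
        refine Finset.prod_congr rfl fun j _ => ?_
        rw [map_zpow, hGg]
      change y ^ n = S.subtype.toMonoidHom _
      rw [h2, h3, h]
    rw [← map_pow, h1]
    have h4 : φ ((∏ j, G j ^ a j : Sˣ) : S) =
        ((Units.map φ.toMonoidHom (∏ j, G j ^ a j) : Kˣ) : K) := rfl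
    rw [h4, map_prod]
    simp only [map_zpow]
    rfl
  let f : F → K := fun a => if h : a ∈ S then φ ⟨a, h⟩ else 0
  have hf : ∀ a (h : a ∈ S), f a = φ ⟨a, h⟩ := fun a h => dif_pos h
  have hinj : Set.InjOn f s := by
    intro x hx y hy hxy
    by_contra hne'
    have hxt := hst x hx
    have hyt := hst y hy
    have hd := hst2 x hx y hy hne'
    rw [hf x (hφ x hxt).1, hf y (hφ y hyt).1] at hxy
    apply hne _ (hφ _ hd).1 hd
    have h1 : (⟨x - y, (hφ _ hd).1⟩ : S) = ⟨x, (hφ x hxt).1⟩ - ⟨y, (hφ y hyt).1⟩ := rfl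
    rw [h1, map_sub, hxy, sub_self]
  rw [← Finset.card_image_of_injOn hinj]
  refine card_le_numberField g' _ fun z hz => ?_
  obtain ⟨x, hx, rfl⟩ := Finset.mem_image.mp hz
  have hxt := hst x hx
  have hxt1 := hst1 x hx
  obtain ⟨_, _, n, hn, a, b, ha, hb⟩ := hs x hx
  have hfx := hf x (hφ x hxt).1
  have hfx1 : 1 - f x = φ ⟨1 - x, (hφ _ hxt1).1⟩ := by
    rw [hfx]
    have h1 : (⟨1 - x, (hφ _ hxt1).1⟩ : S) = 1 - ⟨x, (hφ x hxt).1⟩ := rfl
    rw [h1, map_sub, map_one]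
  refine ⟨?_, ?_, n, hn, a, b, ?_, ?_⟩
  · rw [hfx]
    exact hne _ _ hxt
  · rw [hfx1]
    exact hne _ _ hxt1
  · rw [hfx]
    exact hprod a x _ n ha
  · rw [hfx1]
    exact hprod b (1 - x) _ n hb

end Pool.Agent.LibUE49
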