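import Pool.Agent.LibUE49.T0

set_option autoImplicit false
open Polynomial

namespace Pool.Agent.LibUE49

private theorem T1a_coeff (n : ℕ) : ∀ k : ℕ,
    ((1 - X : ℤ[X]) ^ n).coeff k = (-1) ^ k * (n.choose k : ℤ) := by
  induction n with
  | zero =>
    intro k
    cases k with
    | zero => simp
    | succ k => simp [coeff_one]
  | succ n ih =>
    intro k
    rw [pow_succ, mul_sub, mul_one, coeff_sub]
    cases k with
    | zero => simp [ih, coeff_mul_X_zero]
    | succ k =>
      rw [coeff_mul_X, ih, ih, Nat.choose_succ_succ]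
      push_cast
      ring

private theorem T1a_conv (N R : ℕ) :
    ∑ m ∈ Finset.range (N + 1), (-1 : ℤ) ^ m * ((N + m).choose N : ℤ) * (R.choose (N - m) : ℤ) =
      if N + 1 ≤ R then ((R - N - 1).choose N : ℤ) else (-1) ^ N * ((2 * N - R).choose N : ℤ) := by
  have hG : ∀ d : ℕ, (PowerSeries.mk fun n => (((d + n).choose d : ℕ) : ℤ)) *
      (1 - PowerSeries.X) ^ (d + 1) = 1 :=
    fun d => PowerSeries.mk_add_choose_mul_one_sub_pow_eq_one ℤ d
  have hc : ∀ n k : ℕ, PowerSeries.coeff k ((1 - PowerSeries.X : PowerSeries ℤ) ^ n) =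
      (-1) ^ k * (n.choose k : ℤ) := by
    intro n k
    have h1 : ((1 - PowerSeries.X : PowerSeries ℤ) ^ n) =
        (((1 - X : ℤ[X]) ^ n : ℤ[X]) : PowerSeries ℤ) := by
      push_cast
      rfl
    rw [h1, Polynomial.coeff_coe, T1a_coeff]
  have hlhs : PowerSeries.coeff N ((PowerSeries.mk fun n => (((N + n).choose N : ℕ) : ℤ)) *
      (1 - PowerSeries.X) ^ R) = (-1) ^ N *
      ∑ m ∈ Finset.range (N + 1), (-1 : ℤ) ^ m * ((N + m).choose N : ℤ) *
        (R.choose (N - m) : ℤ) := by
    rw [PowerSeries.coeff_mul, Finset.Nat.sum_antidiagonal_eq_sum_range_succ_mk, Finset.mul_sum]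
    apply Finset.sum_congr rfl
    intro m hm
    have hm' : m ≤ N := Nat.lt_succ_iff.1 (Finset.mem_range.1 hm)
    rw [PowerSeries.coeff_mk, hc]
    have h2 : (-1 : ℤ) ^ (N - m) = (-1) ^ N * (-1) ^ m := by
      have h3 : (-1 : ℤ) ^ N = (-1) ^ (N - m) * (-1) ^ m := by
        rw [← pow_add, Nat.sub_add_cancel hm']
      rw [h3, mul_assoc, ← pow_add, ← two_mul, pow_mul]
      simp
    rw [h2]
    ring
  have hsq : (-1 : ℤ) ^ N * (-1) ^ N = 1 := by
    rw [← pow_add, ← two_mul, pow_mul]
    simp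
  have hrhs : PowerSeries.coeff N ((PowerSeries.mk fun n => (((N + n).choose N : ℕ) : ℤ)) *
      (1 - PowerSeries.X) ^ R) = (-1) ^ N *
      if N + 1 ≤ R then ((R - N - 1).choose N : ℤ) else (-1) ^ N * ((2 * N - R).choose N : ℤ) := by
    split_ifs with h
    · have h1 : (1 - PowerSeries.X : PowerSeries ℤ) ^ R =
          (1 - PowerSeries.X) ^ (N + 1) * (1 - PowerSeries.X) ^ (R - N - 1) := by
        rw [← pow_add]
        congr 1
        omega
      rw [h1, ← mul_assoc, hG, one_mul, hc]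
    · have hR : R ≤ N := by omega
      have h1 : (PowerSeries.mk fun n => (((N + n).choose N : ℕ) : ℤ)) *
          (1 - PowerSeries.X) ^ R = PowerSeries.mk fun n => (((N - R + n).choose (N - R) : ℕ) : ℤ) := by
        have h2 : (PowerSeries.mk fun n => (((N + n).choose N : ℕ) : ℤ)) *
          (1 - PowerSeries.X) ^ R * (1 - PowerSeries.X) ^ (N - R + 1) = 1 := by
          rw [mul_assoc, ← pow_add]
          have h3 : R + (N - R + 1) = N + 1 := by omega
          rw [h3, hG]
        have h4 := hG (N - R)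
        calc _ = (PowerSeries.mk fun n => (((N + n).choose N : ℕ) : ℤ)) *
              (1 - PowerSeries.X) ^ R *
              ((PowerSeries.mk fun n => (((N - R + n).choose (N - R) : ℕ) : ℤ)) *
                (1 - PowerSeries.X) ^ (N - R + 1)) := by rw [h4, mul_one]
          _ = ((PowerSeries.mk fun n => (((N + n).choose N : ℕ) : ℤ)) *
              (1 - PowerSeries.X) ^ R * (1 - PowerSeries.X) ^ (N - R + 1)) *
              (PowerSeries.mk fun n => (((N - R + n).choose (N - R) : ℕ) : ℤ)) := by ring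
          _ = _ := by rw [h2, one_mul]
      rw [h1, PowerSeries.coeff_mk, ← mul_assoc, hsq, one_mul]
      have h5 : N - R + N = 2 * N - R := by omega
      rw [h5]
      congr 1
      rw [← Nat.choose_symm_of_eq_add]
      omega
  have := hlhs.symm.trans hrhs
  have hne : ((-1 : ℤ) ^ N) ≠ 0 := pow_ne_zero _ (by norm_num)
  exact mul_left_cancel₀ hne this

private theorem T1a_choose (N m k : ℕ) (hm : m ≤ N) :
    ((3 * N + 1).choose (N - m)) * ((2 * N + 1 + m).choose k) =
      ((3 * N + 1).choose k) * ((3 * N + 1 - k).choose (N - m)) := by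
  have h0 : (3 * N + 1).choose (N - m) = (3 * N + 1).choose (2 * N + 1 + m) := by
    rw [← Nat.choose_symm_of_eq_add]
    omega
  rcases le_or_gt k (2 * N + 1 + m) with hk | hk
  · rw [h0, Nat.choose_mul hk]
    congr 1
    rw [← Nat.choose_symm_of_eq_add]
    omega
  · rw [Nat.choose_eq_zero_of_lt hk, mul_zero]
    rcases le_or_gt k (3 * N + 1) with hk2 | hk2
    · rw [Nat.choose_eq_zero_of_lt (n := 3 * N + 1 - k) (by omega), mul_zero]
    · rw [Nat.choose_eq_zero_of_lt hk2, zero_mul]

private theorem T1a_coeffB (N k : ℕ) :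
    (padeB N * (1 - X) ^ (2 * N + 1)).coeff k = (-1) ^ (N + k) * ((3 * N + 1).choose k : ℤ) *
      if N + 1 ≤ 3 * N + 1 - k then ((3 * N + 1 - k - N - 1).choose N : ℤ)
        else (-1) ^ N * ((2 * N - (3 * N + 1 - k)).choose N : ℤ) := by
  have h1 : padeB N * (1 - X) ^ (2 * N + 1) = C ((-1) ^ N) * ∑ m ∈ Finset.range (N + 1),
      C ((-1) ^ m * ((N + m).choose N : ℤ) * ((3 * N + 1).choose (N - m) : ℤ)) *
        (1 - X) ^ (2 * N + 1 + m) := by
    rw [padeB, padeA, Polynomial.sum_comp, mul_assoc, Finset.sum_mul]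
    congr 1
    apply Finset.sum_congr rfl
    intro m _
    simp only [mul_comp, C_comp, X_pow_comp]
    rw [mul_assoc, ← pow_add]
    congr 2
    omega
  rw [h1, coeff_C_mul, finsetSum_coeff, ← T1a_conv N (3 * N + 1 - k), Finset.mul_sum,
    Finset.mul_sum]
  apply Finset.sum_congr rfl
  intro m hm
  have hm' : m ≤ N := Nat.lt_succ_iff.1 (Finset.mem_range.1 hm)
  rw [coeff_C_mul, T1a_coeff]
  have h2 := T1a_choose N m k hm'
  have h3 : (((3 * N + 1).choose (N - m) : ℕ) : ℤ) * ((2 * N + 1 + m).choose k : ℕ) =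
      ((3 * N + 1).choose k : ℕ) * ((3 * N + 1 - k).choose (N - m) : ℕ) := by
    exact_mod_cast h2
  rw [pow_add]
  linear_combination ((-1) ^ N * (-1) ^ m * ((N + m).choose N : ℤ) * (-1) ^ k) * h3

/-- The Pade identity. -/
theorem pade_identity (N : ℕ) :
    padeA N * X ^ (2 * N + 1) + padeB N * (1 - X) ^ (2 * N + 1) = padeD N := by
  ext k
  rw [coeff_add, T1a_coeffB, coeff_mul_X_pow', padeA, padeD, finsetSum_coeff, finsetSum_coeff]
  simp only [coeff_C_mul_X_pow]
  rw [Finset.sum_ite_eq, Finset.sum_ite_eq]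
  simp only [Finset.mem_range]
  have hN2 : ((-1 : ℤ) ^ N) * (-1) ^ N = 1 := by
    rw [← pow_add, ← two_mul, pow_mul]
    simp
  rcases le_or_gt k (2 * N) with hk | hk
  · have e1 : ¬ (2 * N + 1 ≤ k) := by omega
    have e2 : N + 1 ≤ 3 * N + 1 - k := by omega
    rw [if_neg e1, if_pos e2, zero_add]
    have e3 : 3 * N + 1 - k - N - 1 = 2 * N - k := by omega
    rw [e3]
    rcases le_or_gt k N with hk2 | hk2
    · rw [if_pos (by omega : k < N + 1)]
      have h2 : (-1 : ℤ) ^ (N - k) = (-1) ^ (N + k) := by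
        have h3 : N + k = (N - k) + 2 * k := by omega
        rw [h3, pow_add, pow_mul]
        simp
      rw [h2]
    · rw [if_neg (by omega : ¬ k < N + 1), Nat.choose_eq_zero_of_lt (n := 2 * N - k) (by omega)]
      simp
  · have e1 : 2 * N + 1 ≤ k := by omega
    have e2 : ¬ (N + 1 ≤ 3 * N + 1 - k) := by omega
    rw [if_pos e1, if_neg e2, if_neg (by omega : ¬ k < N + 1)]
    rcases le_or_gt k (3 * N + 1) with hk2 | hk2
    · rw [if_pos (by omega : k - (2 * N + 1) < N + 1)]
      have h1 : 2 * N - (3 * N + 1 - k) = N + (k - (2 * N + 1)) := by omega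
      have h2 : (3 * N + 1).choose (N - (k - (2 * N + 1))) = (3 * N + 1).choose k := by
        rw [← Nat.choose_symm_of_eq_add]
        omega
      have h3 : (-1 : ℤ) ^ (k - (2 * N + 1)) = - (-1) ^ k := by
        have h4 : k = (k - (2 * N + 1)) + 2 * N + 1 := by omega
        have h5 : (-1 : ℤ) ^ k = (-1) ^ ((k - (2 * N + 1)) + 2 * N + 1) := by rw [← h4]
        rw [h5, pow_succ, pow_add, pow_mul]
        simp
      rw [h1, h2, h3, pow_add]
      linear_combination ((-1) ^ k * ((3 * N + 1).choose k : ℤ) *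
        ((N + (k - (2 * N + 1))).choose N : ℤ)) * hN2
    · rw [if_neg (by omega : ¬ (k - (2 * N + 1) < N + 1)), Nat.choose_eq_zero_of_lt hk2]
      simp

end Pool.Agent.LibUE49
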