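import Pool.Agent.LibUE49.T0

set_option autoImplicit false
open Polynomial

namespace Pool.Agent.LibUE49

private theorem T1b_len_eq {p : ℤ[X]} {S : Finset ℕ} (h : p.support ⊆ S) :
    len p = ∑ i ∈ S, (p.coeff i).natAbs := by
  unfold len
  refine Finset.sum_subset h fun i _ hi => ?_
  rw [notMem_support_iff.mp hi]
  rfl

private theorem T1b_len_add (p q : ℤ[X]) : len (p + q) ≤ len p + len q := by
  classical
  rw [T1b_len_eq (p := p) (S := p.support ∪ q.support) Finset.subset_union_left,
    T1b_len_eq (p := q) (S := p.support ∪ q.support) Finset.subset_union_right,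
    T1b_len_eq (p := p + q) (S := p.support ∪ q.support) support_add, ← Finset.sum_add_distrib]
  refine Finset.sum_le_sum fun i _ => ?_
  rw [coeff_add]
  exact Int.natAbs_add_le _ _

private theorem T1b_len_zero : len 0 = 0 := by simp [len]

private theorem T1b_len_sum {ι : Type} (s : Finset ι) (f : ι → ℤ[X]) :
    len (∑ i ∈ s, f i) ≤ ∑ i ∈ s, len (f i) := by
  classical
  induction s using Finset.induction_on with
  | empty => simp [T1b_len_zero]
  | insert i s hi ih =>
    rw [Finset.sum_insert hi, Finset.sum_insert hi]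
    exact (T1b_len_add _ _).trans (by omega)

private theorem T1b_len_mon (c : ℤ) (m : ℕ) : len (C c * X ^ m) = c.natAbs := by
  rw [T1b_len_eq (support_C_mul_X_pow' m c), Finset.sum_singleton, coeff_C_mul, coeff_X_pow]
  simp

private theorem T1b_len_C_mul (c : ℤ) (p : ℤ[X]) : len (C c * p) ≤ c.natAbs * len p := by
  conv_lhs => rw [p.as_sum_support_C_mul_X_pow, Finset.mul_sum]
  refine (T1b_len_sum _ _).trans ?_
  unfold len
  rw [Finset.mul_sum]
  refine Finset.sum_le_sum fun i _ => ?_
  change len _ ≤ _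
  rw [← mul_assoc, ← C_mul, T1b_len_mon, Int.natAbs_mul]

private theorem T1b_len_mul_X (p : ℤ[X]) : len (p * X) ≤ len p := by
  conv_lhs => rw [p.as_sum_support_C_mul_X_pow, Finset.sum_mul]
  refine (T1b_len_sum _ _).trans ?_
  conv_rhs => unfold len
  refine Finset.sum_le_sum fun i _ => ?_
  rw [mul_assoc, ← pow_succ, T1b_len_mon]

private theorem T1b_len_pow (m : ℕ) : len ((1 - X) ^ m) ≤ 2 ^ m := by
  induction m with
  | zero =>
    have h := T1b_len_mon 1 0
    simp only [pow_zero, mul_one, map_one] at h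
    rw [pow_zero, h]
    norm_num
  | succ m ih =>
    have h1 : ((1 - X : ℤ[X])) ^ (m + 1) = (1 - X) ^ m + C (-1) * ((1 - X) ^ m * X) := by
      rw [pow_succ, map_neg, map_one]; ring
    rw [h1]
    refine (T1b_len_add _ _).trans ?_
    have h2 := T1b_len_C_mul (-1) ((1 - X) ^ m * X)
    have h3 := T1b_len_mul_X ((1 - X) ^ m)
    have h4 : ((-1 : ℤ)).natAbs = 1 := by norm_num
    rw [h4, one_mul] at h2
    rw [pow_succ]
    omega

private theorem T1b_choose_sum (N : ℕ) :
    ∑ m ∈ Finset.range (N + 1), (3 * N + 1).choose m ≤ 2 ^ (3 * N + 1) := by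
  rw [← Nat.sum_range_choose (3 * N + 1)]
  refine Finset.sum_le_sum_of_subset_of_nonneg ?_ fun _ _ _ => Nat.zero_le _
  exact Finset.range_subset_range.mpr (by omega)

private theorem T1b_choose_sum' (N : ℕ) :
    ∑ m ∈ Finset.range (N + 1), (3 * N + 1).choose (N - m) ≤ 2 ^ (3 * N + 1) := by
  refine le_trans (le_of_eq ?_) (T1b_choose_sum N)
  rw [← Finset.sum_range_reflect]
  refine Finset.sum_congr rfl fun m hm => ?_
  congr 1
  have := Finset.mem_range.mp hm
  omega

private theorem T1b_coeffs (N : ℕ) :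
    ∑ m ∈ Finset.range (N + 1),
      ((-1) ^ m * ((N + m).choose N : ℤ) * ((3 * N + 1).choose (N - m) : ℤ)).natAbs ≤
      2 ^ (5 * N + 1) := by
  have h1 : ∀ m ∈ Finset.range (N + 1),
      ((-1) ^ m * ((N + m).choose N : ℤ) * ((3 * N + 1).choose (N - m) : ℤ)).natAbs ≤
        2 ^ (2 * N) * (3 * N + 1).choose (N - m) := by
    intro m hm
    have hm' := Finset.mem_range.mp hm
    rw [Int.natAbs_mul, Int.natAbs_mul, Int.natAbs_pow, Int.natAbs_neg, Int.natAbs_one, one_pow,
      one_mul, Int.natAbs_natCast, Int.natAbs_natCast]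
    refine Nat.mul_le_mul_right _ ?_
    refine (Nat.choose_le_two_pow _ _).trans ?_
    exact Nat.pow_le_pow_right (by norm_num) (by omega)
  refine (Finset.sum_le_sum h1).trans ?_
  rw [← Finset.mul_sum]
  refine (Nat.mul_le_mul_left _ (T1b_choose_sum' N)).trans (le_of_eq ?_)
  rw [← pow_add]
  congr 1
  ring

theorem natDegree_padeA (N : ℕ) : (padeA N).natDegree ≤ N := by
  unfold padeA
  refine natDegree_sum_le_of_forall_le _ _ fun m hm => ?_
  have hm' := Finset.mem_range.mp hm
  exact (natDegree_C_mul_X_pow_le _ _).trans (by omega)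

theorem natDegree_padeB (N : ℕ) : (padeB N).natDegree ≤ N := by
  unfold padeB
  refine (natDegree_C_mul_le _ _).trans ?_
  refine natDegree_comp_le.trans ?_
  have h1 : (1 - X : ℤ[X]).natDegree ≤ 1 := by
    have : (1 - X : ℤ[X]) = C 1 - X := by rw [map_one]
    rw [this]
    refine (natDegree_sub_le _ _).trans ?_
    simp
  calc (padeA N).natDegree * (1 - X : ℤ[X]).natDegree ≤ N * 1 :=
        Nat.mul_le_mul (natDegree_padeA N) h1
    _ = N := mul_one N

theorem natDegree_padeD (N : ℕ) : (padeD N).natDegree ≤ N := by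
  unfold padeD
  refine natDegree_sum_le_of_forall_le _ _ fun m hm => ?_
  have hm' := Finset.mem_range.mp hm
  exact (natDegree_C_mul_X_pow_le _ _).trans (by omega)

theorem len_padeA (N : ℕ) : len (padeA N) ≤ 2 ^ (6 * N + 1) := by
  unfold padeA
  refine (T1b_len_sum _ _).trans ?_
  simp only [T1b_len_mon]
  exact (T1b_coeffs N).trans (Nat.pow_le_pow_right (by norm_num) (by omega))

theorem len_padeB (N : ℕ) : len (padeB N) ≤ 2 ^ (6 * N + 1) := by
  unfold padeB
  refine (T1b_len_C_mul _ _).trans ?_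
  rw [Int.natAbs_pow, Int.natAbs_neg, Int.natAbs_one, one_pow, one_mul]
  unfold padeA
  rw [← coe_compRingHom_apply, map_sum]
  refine (T1b_len_sum _ _).trans ?_
  simp only [coe_compRingHom_apply]
  have h1 : ∀ m ∈ Finset.range (N + 1),
      len ((C ((-1) ^ m * ((N + m).choose N : ℤ) * ((3 * N + 1).choose (N - m) : ℤ)) *
        X ^ m : ℤ[X]).comp (1 - X)) ≤
      ((-1) ^ m * ((N + m).choose N : ℤ) * ((3 * N + 1).choose (N - m) : ℤ)).natAbs * 2 ^ N := by
    intro m hm
    have hm' := Finset.mem_range.mp hm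
    rw [mul_comp, C_comp, pow_comp, X_comp]
    refine (T1b_len_C_mul _ _).trans ?_
    refine Nat.mul_le_mul_left _ ((T1b_len_pow m).trans ?_)
    exact Nat.pow_le_pow_right (by norm_num) (by omega)
  refine (Finset.sum_le_sum h1).trans ?_
  rw [← Finset.sum_mul]
  refine (Nat.mul_le_mul_right _ (T1b_coeffs N)).trans (le_of_eq ?_)
  rw [← pow_add]
  congr 1
  ring

theorem len_padeD (N : ℕ) : len (padeD N) ≤ 2 ^ (6 * N + 1) := by
  unfold padeD
  refine (T1b_len_sum _ _).trans ?_
  simp only [T1b_len_mon]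
  have h1 : ∀ m ∈ Finset.range (N + 1),
      ((-1) ^ (N - m) * ((3 * N + 1).choose m : ℤ) * ((2 * N - m).choose N : ℤ)).natAbs ≤
        (3 * N + 1).choose m * 2 ^ (2 * N) := by
    intro m hm
    have hm' := Finset.mem_range.mp hm
    rw [Int.natAbs_mul, Int.natAbs_mul, Int.natAbs_pow, Int.natAbs_neg, Int.natAbs_one, one_pow,
      one_mul, Int.natAbs_natCast, Int.natAbs_natCast]
    refine Nat.mul_le_mul_left _ ?_
    refine (Nat.choose_le_two_pow _ _).trans ?_
    exact Nat.pow_le_pow_right (by norm_num) (by omega)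
  refine (Finset.sum_le_sum h1).trans ?_
  rw [← Finset.sum_mul]
  refine (Nat.mul_le_mul_right _ (T1b_choose_sum N)).trans ?_
  rw [← pow_add]
  exact Nat.pow_le_pow_right (by norm_num) (by omega)

end Pool.Agent.LibUE49
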