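import Pool.Agent.LibUE49.T1a
import Pool.Agent.LibUE49.T1b

set_option autoImplicit false
open Polynomial

namespace Pool.Agent.LibUE49

theorem T1c_coeff_padeA (N i : ℕ) (hi : i ≤ N) : (padeA N).coeff i =
    (-1) ^ i * ((N + i).choose N : ℤ) * ((3 * N + 1).choose (N - i) : ℤ) := by
  rw [padeA, finsetSum_coeff]
  simp only [coeff_C_mul, coeff_X_pow]
  rw [Finset.sum_eq_single i]
  · simp
  · intro b _ hb
    simp [hb.symm]
  · intro h
    exact absurd (Finset.mem_range.mpr (by omega)) h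

theorem T1c_coeff_padeD (N i : ℕ) (hi : i ≤ N) : (padeD N).coeff i =
    (-1) ^ (N - i) * ((3 * N + 1).choose i : ℤ) * ((2 * N - i).choose N : ℤ) := by
  rw [padeD, finsetSum_coeff]
  simp only [coeff_C_mul, coeff_X_pow]
  rw [Finset.sum_eq_single i]
  · simp
  · intro b _ hb
    simp [hb.symm]
  · intro h
    exact absurd (Finset.mem_range.mpr (by omega)) h

theorem T1c_choose_neg (n i : ℕ) :
    Ring.choose (-(n + 1 : ℤ)) i = (-1) ^ i * ((n + i).choose n : ℤ) := by
  rw [Ring.choose_neg, Int.negOnePow_def]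
  have : ((n : ℤ) + 1 + i - 1) = ((n + i : ℕ) : ℤ) := by push_cast; ring
  rw [this, Ring.choose_natCast]
  rw [Nat.choose_symm_add]
  simp [Units.smul_def]

theorem T1c_padeA_one (M : ℕ) : (padeA M).eval 1 = ((2 * M).choose M : ℤ) := by
  have h := Ring.add_choose_eq (R := ℤ) (r := -((M : ℤ) + 1)) (s := ((3 * M + 1 : ℕ) : ℤ)) M
    (Commute.all _ _)
  have h0 : -((M : ℤ) + 1) + ((3 * M + 1 : ℕ) : ℤ) = ((2 * M : ℕ) : ℤ) := by push_cast; ring
  rw [h0, Ring.choose_natCast] at h
  rw [h, Finset.Nat.sum_antidiagonal_eq_sum_range_succ_mk, padeA, eval_finsetSum]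
  refine Finset.sum_congr rfl fun i hi => ?_
  rw [T1c_choose_neg, Ring.choose_natCast]
  simp

theorem T1c_padeA_zero (M : ℕ) : (padeA M).eval 0 = ((3 * M + 1).choose M : ℤ) := by
  rw [← coeff_zero_eq_eval_zero, T1c_coeff_padeA M 0 (Nat.zero_le _)]
  simp

theorem T1c_padeB_zero (M : ℕ) : (padeB M).eval 0 = (-1) ^ M * ((2 * M).choose M : ℤ) := by
  rw [padeB, eval_mul, eval_C, eval_comp]
  simp [T1c_padeA_one]

theorem T1c_padeB_one (M : ℕ) : (padeB M).eval 1 = (-1) ^ M * ((3 * M + 1).choose M : ℤ) := by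
  rw [padeB, eval_mul, eval_C, eval_comp]
  simp [T1c_padeA_zero]

/-- The coefficient of degree `d` of `p.comp (1 - X)` when `natDegree p ≤ d`. -/
theorem T1c_coeff_comp (p : ℤ[X]) (d : ℕ) (hp : p.natDegree ≤ d) :
    (p.comp (1 - X)).coeff d = (-1) ^ d * p.coeff d := by
  have hq : (1 - X : ℤ[X]).natDegree = 1 := by
    have : (1 - X : ℤ[X]) = -(X - C 1) := by simp
    rw [this, natDegree_neg, natDegree_X_sub_C]
  have hl : (1 - X : ℤ[X]).leadingCoeff = -1 := by
    have : (1 - X : ℤ[X]) = -(X - C 1) := by simp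
    rw [this, leadingCoeff_neg, leadingCoeff_X_sub_C]
  rcases hp.eq_or_lt with h | h
  · subst h
    have := coeff_comp_degree_mul_degree (p := p) (q := 1 - X) (by rw [hq]; norm_num)
    rw [hq, mul_one, hl, mul_comm] at this
    exact this
  · rw [coeff_eq_zero_of_natDegree_lt h, mul_zero]
    apply coeff_eq_zero_of_natDegree_lt
    rw [natDegree_comp, hq, mul_one]
    exact h

theorem T1c_coeff_padeB (N : ℕ) : (padeB N).coeff N = (-1) ^ N * ((2 * N).choose N : ℤ) := by
  rw [padeB, coeff_C_mul, T1c_coeff_comp _ _ (natDegree_padeA N), T1c_coeff_padeA N N le_rfl]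
  have h : ((-1 : ℤ) ^ N) * (-1) ^ N = 1 := by rw [← mul_pow]; simp
  rw [← two_mul]
  simp only [Nat.sub_self, Nat.choose_zero_right, Nat.cast_one, mul_one]
  calc (-1 : ℤ) ^ N * ((-1) ^ N * ((-1) ^ N * ((2 * N).choose N : ℤ)))
      = ((-1) ^ N * (-1) ^ N) * ((-1) ^ N * ((2 * N).choose N : ℤ)) := by ring
    _ = _ := by rw [h, one_mul]

/-- Two consecutive Pade relations are independent. -/
theorem pade_det (N : ℕ) :
    padeA N * ((1 - X) ^ 2 * padeB (N + 1)) - padeB N * (X ^ 2 * padeA (N + 1)) =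
      C ((-1) ^ (N + 1) * ((3 * N + 1).choose N : ℤ) * ((2 * N + 2).choose (N + 1) : ℤ)) *
        (X ^ 2 - X + 1) := by
  set E : ℤ[X] := padeA N * ((1 - X) ^ 2 * padeB (N + 1)) - padeB N * (X ^ 2 * padeA (N + 1))
    with hE
  set c : ℤ := (-1) ^ (N + 1) * ((3 * N + 1).choose N : ℤ) * ((2 * N + 2).choose (N + 1) : ℤ)
    with hc
  have key : E * X ^ (2 * N + 1) =
      padeD N * ((1 - X) ^ 2 * padeB (N + 1)) - padeB N * padeD (N + 1) := by
    rw [← pade_identity N, ← pade_identity (N + 1), hE]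
    have e1 : 2 * (N + 1) + 1 = 2 * N + 1 + 2 := by ring
    rw [e1, pow_add, pow_add (1 - X : ℤ[X])]
    ring
  have hX : (1 - X : ℤ[X]).natDegree ≤ 1 := by compute_degree
  have hX2 : ((1 - X : ℤ[X]) ^ 2).natDegree ≤ 2 := by compute_degree
  -- the coefficients of high degree
  have hco : ∀ i, E.coeff i =
      (padeD N * ((1 - X) ^ 2 * padeB (N + 1)) - padeB N * padeD (N + 1)).coeff
        (i + (2 * N + 1)) := by
    intro i
    rw [← key, coeff_mul_X_pow]
  have hdeg1 : (padeD N * ((1 - X) ^ 2 * padeB (N + 1))).natDegree ≤ 2 * N + 3 := by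
    refine (natDegree_mul_le_of_le (natDegree_padeD N)
      (natDegree_mul_le_of_le hX2 (natDegree_padeB (N + 1)))).trans ?_
    omega
  have hdeg2 : (padeB N * padeD (N + 1)).natDegree ≤ 2 * N + 1 := by
    refine (natDegree_mul_le_of_le (natDegree_padeB N) (natDegree_padeD (N + 1))).trans ?_
    omega
  have h3 : ∀ i, 3 ≤ i → E.coeff i = 0 := by
    intro i hi
    rw [hco, coeff_sub, coeff_eq_zero_of_natDegree_lt (by omega),
      coeff_eq_zero_of_natDegree_lt (by omega), sub_zero]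
  have hEdeg : E.natDegree ≤ 2 := by
    rw [natDegree_le_iff_coeff_eq_zero]
    intro i hi
    exact h3 i hi
  have h2 : E.coeff 2 = c := by
    rw [hco, coeff_sub, coeff_eq_zero_of_natDegree_lt (p := padeB N * padeD (N + 1)) (by omega),
      sub_zero]
    have e1 : 2 + (2 * N + 1) = N + (2 + (N + 1)) := by ring
    rw [e1, coeff_mul_add_eq_of_natDegree_le (natDegree_padeD N)
      (natDegree_mul_le_of_le hX2 (natDegree_padeB (N + 1))),
      coeff_mul_add_eq_of_natDegree_le hX2 (natDegree_padeB (N + 1)), T1c_coeff_padeB,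
      T1c_coeff_padeD N N le_rfl]
    have e2 : 2 * N - N = N := by omega
    have e3 : ((1 - X : ℤ[X]) ^ 2).coeff 2 = 1 := by
      have : (1 - X : ℤ[X]) ^ 2 = 1 - C 2 * X + X ^ 2 := by
        have : (C 2 : ℤ[X]) = 2 := by simp
        rw [this]; ring
      rw [this]
      simp [coeff_one, coeff_X]
    rw [e2, e3, hc]
    have e4 : 2 * (N + 1) = 2 * N + 2 := by ring
    rw [e4]
    simp
    ring
  have h0 : E.coeff 0 = c := by
    rw [coeff_zero_eq_eval_zero, hE]
    simp only [eval_sub, eval_mul, eval_pow, eval_one, eval_X]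
    rw [T1c_padeA_zero, T1c_padeB_zero, hc]
    have e4 : 2 * (N + 1) = 2 * N + 2 := by ring
    rw [e4]
    ring
  have hE1 : E.eval 1 = c := by
    rw [hE]
    simp only [eval_sub, eval_mul, eval_pow, eval_one, eval_X]
    rw [T1c_padeB_one N, T1c_padeA_one (N + 1), hc]
    have e4 : 2 * (N + 1) = 2 * N + 2 := by ring
    rw [e4, pow_succ]
    ring
  have hsum : E.eval 1 = E.coeff 0 + E.coeff 1 + E.coeff 2 := by
    rw [eval_eq_sum_range' (n := 3) (by omega)]
    simp [Finset.sum_range_succ]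
  have h1 : E.coeff 1 = -c := by
    rw [hE1, h0, h2] at hsum
    linarith
  ext i
  rw [coeff_C_mul]
  match i with
  | 0 => rw [h0]; simp [coeff_one, coeff_X]
  | 1 => rw [h1]; simp [coeff_one, coeff_X]
  | 2 => rw [h2]; simp [coeff_one, coeff_X]
  | (j + 3) =>
    rw [h3 (j + 3) (by omega)]
    have : (X ^ 2 - X + 1 : ℤ[X]).coeff (j + 3) = 0 := by
      simp [coeff_one, coeff_X, coeff_X_pow]
    rw [this, mul_zero]

end Pool.Agent.LibUE49
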