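import Pool.Agent.LibUE49.T0

set_option autoImplicit false
open Polynomial Height

namespace Pool.Agent.LibUE49

open Height.AdmissibleAbsValues Function in
private theorem T2_supp {K : Type} [Field K] [AdmissibleAbsValues K] {ι : Type} [Finite ι]
    {x : ι → K} (hx : x ≠ 0) :
    (fun v : nonarchAbsVal (K := K) ↦ ⨆ i, v.val (x i)).HasFiniteMulSupport := by
  have : Nonempty {j // x j ≠ 0} := nonempty_subtype.mpr <| ne_iff.mp hx
  suffices (fun v : nonarchAbsVal (K := K) ↦
      ⨆ i : {j // x j ≠ 0}, v.val (x i)).HasFiniteMulSupport by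
    convert this with v
    obtain ⟨i, hi⟩ : ∃ j, x j ≠ 0 := Function.ne_iff.mp hx
    have : Nonempty ι := .intro i
    refine le_antisymm (ciSup_le fun j ↦ ?_) (ciSup_le fun ⟨j, hj⟩ ↦ Finite.le_ciSup_of_le j le_rfl)
    rcases eq_or_ne (x j) 0 with h | h
    · rw [h, v.val.map_zero]
      exact Real.iSup_nonneg' ⟨⟨i, hi⟩, v.val.nonneg ..⟩
    · exact Finite.le_ciSup_of_le (⟨j, h⟩ : {j // x j ≠ 0}) le_rfl
  fun_prop (disch := grind)

open Height.AdmissibleAbsValues Function in
private theorem T2_supp1 {K : Type} [Field K] [AdmissibleAbsValues K] (x : K) :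
    (fun v : nonarchAbsVal (K := K) ↦ max (v.val x) 1).HasFiniteMulSupport := by
  rcases eq_or_ne x 0 with rfl | hx
  · simp [HasFiniteMulSupport]
  fun_prop

private theorem T2_nat {K : Type} [Field K] (v : AbsoluteValue K ℝ) (n : ℕ) : v (n : K) ≤ n := by
  induction n with
  | zero => simp
  | succ n ih =>
    push_cast
    refine (v.add_le _ _).trans ?_
    rw [map_one]
    linarith

private theorem T2_int {K : Type} [Field K] (v : AbsoluteValue K ℝ) (n : ℤ) :
    v (n : K) ≤ n.natAbs := by
  have h := T2_nat v n.natAbs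
  rcases Int.natAbs_eq n with h1 | h1
  · rw [h1]
    simpa using h
  · rw [h1, Int.natAbs_neg, Int.natAbs_natCast]
    push_cast
    rw [v.map_neg]
    simpa using h

private theorem T2_pow {K : Type} [Field K] (v : AbsoluteValue K ℝ) (x : K) {i N : ℕ}
    (hi : i ≤ N) : v (x ^ i) ≤ max (v x) 1 ^ N := by
  rw [map_pow]
  calc v x ^ i ≤ max (v x) 1 ^ i := pow_le_pow_left₀ (v.nonneg x) (le_max_left _ _) i
    _ ≤ max (v x) 1 ^ N := pow_le_pow_right₀ (le_max_right _ _) hi

private theorem T2_aeval {K : Type} [Field K] (A : ℤ[X]) (x : K) :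
    aeval x A = ∑ i ∈ A.support, (A.coeff i : K) * x ^ i := by
  rw [aeval_def, eval₂_eq_sum, Polynomial.sum_def]
  simp

private theorem T2_arch {K : Type} [Field K] (v : AbsoluteValue K ℝ) (A : ℤ[X]) (N S : ℕ)
    (hA : A.natDegree ≤ N) (hA' : len A ≤ S) (x : K) :
    v (aeval x A) ≤ S * max (v x) 1 ^ N := by
  rw [T2_aeval]
  refine (v.sum_le _ _).trans ?_
  have h1 : ∀ i ∈ A.support, v ((A.coeff i : K) * x ^ i) ≤
      ((A.coeff i).natAbs : ℝ) * max (v x) 1 ^ N := by
    intro i hi
    rw [v.map_mul]
    refine mul_le_mul (T2_int v _) (T2_pow v x ((le_natDegree_of_mem_supp i hi).trans hA))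
      (v.nonneg _) (Nat.cast_nonneg _)
  refine (Finset.sum_le_sum h1).trans ?_
  rw [← Finset.sum_mul]
  refine mul_le_mul_of_nonneg_right ?_ (by positivity)
  have h2 : ((len A : ℕ) : ℝ) ≤ S := by exact_mod_cast hA'
  refine le_trans (le_of_eq ?_) h2
  unfold len
  push_cast
  rfl

private theorem T2_nonarch {K : Type} [Field K] (v : AbsoluteValue K ℝ) (hv : IsNonarchimedean v)
    (A : ℤ[X]) (N : ℕ) (hA : A.natDegree ≤ N) (x : K) :
    v (aeval x A) ≤ max (v x) 1 ^ N := by
  classical
  rw [T2_aeval]
  have h1 : ∀ i ∈ A.support, v ((A.coeff i : K) * x ^ i) ≤ max (v x) 1 ^ N := by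
    intro i hi
    rw [v.map_mul]
    have h2 : v (A.coeff i : K) ≤ 1 := IsNonarchimedean.apply_intCast_le_one hv
    calc v (A.coeff i : K) * v (x ^ i) ≤ 1 * max (v x) 1 ^ N :=
          mul_le_mul h2 (T2_pow v x ((le_natDegree_of_mem_supp i hi).trans hA))
            (v.nonneg _) zero_le_one
      _ = _ := one_mul _
  have h0 : (0 : ℝ) ≤ max (v x) 1 ^ N := by positivity
  generalize A.support = s at h1
  induction s using Finset.induction_on with
  | empty => simpa using h0
  | insert i s hi ih =>
    rw [Finset.sum_insert hi]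
    refine (hv _ _).trans (max_le (h1 i (Finset.mem_insert_self _ _)) (ih fun j hj =>
      h1 j (Finset.mem_insert_of_mem hj)))

open Height.AdmissibleAbsValues in
/-- Height of a triple of integer polynomials of degree at most `N` and length at most `S`,
evaluated at `x`. -/
theorem logHeight_triple_le {K : Type} [Field K] [NumberField K] (N S : ℕ) (hS : 1 ≤ S)
    (A B D : ℤ[X]) (hA : A.natDegree ≤ N) (hB : B.natDegree ≤ N) (hD : D.natDegree ≤ N)
    (hA' : len A ≤ S) (hB' : len B ≤ S) (hD' : len D ≤ S) (x : K) :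
    logHeight ![aeval x A, aeval x B, aeval x D] ≤
      N * logHeight₁ x + totalWeight K * Real.log S := by
  have hS' : (0 : ℝ) < S := by exact_mod_cast hS
  set y : Fin 3 → K := ![aeval x A, aeval x B, aeval x D] with hy
  have key : mulHeight y ≤ (S : ℝ) ^ totalWeight K * mulHeight₁ x ^ N := by
    by_cases h0 : y = 0
    · rw [h0, mulHeight_zero]
      have h1 : (1 : ℝ) ≤ S := by exact_mod_cast hS
      exact one_le_mul_of_one_le_of_one_le (one_le_pow₀ h1) (one_le_pow₀ (one_le_mulHeight₁ x))
    · rw [mulHeight_eq h0, mulHeight₁_eq, mul_pow, ← mul_assoc, totalWeight]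
      have harch : ∀ v : AbsoluteValue K ℝ, ⨆ i, v (y i) ≤ S * max (v x) 1 ^ N := by
        intro v
        refine Real.iSup_le (fun i => ?_) (by positivity)
        fin_cases i
        · exact T2_arch v A N S hA hA' x
        · exact T2_arch v B N S hB hB' x
        · exact T2_arch v D N S hD hD' x
      have hnon : ∀ v : nonarchAbsVal (K := K), ⨆ i, v.val (y i) ≤ max (v.val x) 1 ^ N := by
        intro v
        have hv := isNonarchimedean v.1 v.2
        refine Real.iSup_le (fun i => ?_) (by positivity)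
        fin_cases i
        · exact T2_nonarch v.1 hv A N hA x
        · exact T2_nonarch v.1 hv B N hB x
        · exact T2_nonarch v.1 hv D N hD x
      refine mul_le_mul ?_ ?_ ?_ ?_
      · rw [← Multiset.prod_map_pow, ← Multiset.prod_replicate, ← Multiset.map_const,
          ← Multiset.prod_map_mul]
        refine Multiset.prod_map_le_prod_map₀ _ _ (fun v _ => ?_) (fun v _ => harch v)
        exact Real.iSup_nonneg fun i => v.nonneg _
      · rw [finprod_pow (T2_supp1 x)]
        exact finprod_le_finprod (T2_supp h0) (fun v => Real.iSup_nonneg fun i => v.1.nonneg _)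
          ((T2_supp1 x).pow N) hnon
      · exact finprod_nonneg fun v => Real.iSup_nonneg fun i => v.1.nonneg _
      · exact mul_nonneg (by positivity) (pow_nonneg (Multiset.prod_nonneg (by
          intro a ha
          obtain ⟨v, -, rfl⟩ := Multiset.mem_map.mp ha
          positivity)) _)
  rw [logHeight_eq_log_mulHeight, logHeight₁_eq_log_mulHeight₁]
  refine (Real.log_le_log (mulHeight_pos y) key).trans (le_of_eq ?_)
  rw [Real.log_mul (by positivity) (pow_ne_zero _ (mulHeight₁_ne_zero x)), Real.log_pow,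
    Real.log_pow]
  ring

end Pool.Agent.LibUE49
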