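import Mathlib

set_option autoImplicit false
open Height

namespace Pool.Agent.LibUE49

/-- Local bound, archimedean case. -/
theorem T3_arch {K : Type} [Field K] (v : AbsoluteValue K ℝ) (u w : Fin 3 → K) :
    ⨆ i, v (![u 1 * w 2 - u 2 * w 1, u 2 * w 0 - u 0 * w 2, u 0 * w 1 - u 1 * w 0] i) ≤
      2 * ((⨆ i, v (u i)) * ⨆ i, v (w i)) := by
  have hU : ∀ i, v (u i) ≤ ⨆ i, v (u i) := fun i => Finite.le_ciSup_of_le i le_rfl
  have hW : ∀ i, v (w i) ≤ ⨆ i, v (w i) := fun i => Finite.le_ciSup_of_le i le_rfl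
  have hU0 : 0 ≤ ⨆ i, v (u i) := (v.nonneg _).trans (hU 0)
  have key1 : ∀ a b : Fin 3, v (u a * w b) ≤ (⨆ i, v (u i)) * ⨆ i, v (w i) := by
    intro a b
    rw [map_mul]
    exact mul_le_mul (hU a) (hW b) (v.nonneg _) hU0
  have key : ∀ a b c d : Fin 3, v (u a * w b - u c * w d) ≤
      2 * ((⨆ i, v (u i)) * ⨆ i, v (w i)) := by
    intro a b c d
    have h1 : v (u a * w b - u c * w d) ≤ v (u a * w b) + v (u c * w d) := by
      rw [sub_eq_add_neg, ← v.map_neg (u c * w d)]
      exact v.add_le _ _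
    have h2 := key1 a b
    have h3 := key1 c d
    linarith
  refine ciSup_le fun i => ?_
  fin_cases i
  · exact key _ _ _ _
  · exact key _ _ _ _
  · exact key _ _ _ _

/-- Local bound, nonarchimedean case. -/
theorem T3_nonarch {K : Type} [Field K] (v : AbsoluteValue K ℝ) (hv : IsNonarchimedean v)
    (u w : Fin 3 → K) :
    ⨆ i, v (![u 1 * w 2 - u 2 * w 1, u 2 * w 0 - u 0 * w 2, u 0 * w 1 - u 1 * w 0] i) ≤
      (⨆ i, v (u i)) * ⨆ i, v (w i) := by
  have hU : ∀ i, v (u i) ≤ ⨆ i, v (u i) := fun i => Finite.le_ciSup_of_le i le_rfl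
  have hW : ∀ i, v (w i) ≤ ⨆ i, v (w i) := fun i => Finite.le_ciSup_of_le i le_rfl
  have hU0 : 0 ≤ ⨆ i, v (u i) := (v.nonneg _).trans (hU 0)
  have key1 : ∀ a b : Fin 3, v (u a * w b) ≤ (⨆ i, v (u i)) * ⨆ i, v (w i) := by
    intro a b
    rw [map_mul]
    exact mul_le_mul (hU a) (hW b) (v.nonneg _) hU0
  have key : ∀ a b c d : Fin 3, v (u a * w b - u c * w d) ≤
      (⨆ i, v (u i)) * ⨆ i, v (w i) := by
    intro a b c d
    have h1 : v (u a * w b - u c * w d) ≤ max (v (u a * w b)) (v (u c * w d)) := by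
      rw [sub_eq_add_neg, ← v.map_neg (u c * w d)]
      exact hv _ _
    exact h1.trans (max_le (key1 a b) (key1 c d))
  refine ciSup_le fun i => ?_
  fin_cases i
  · exact key _ _ _ _
  · exact key _ _ _ _
  · exact key _ _ _ _

open AdmissibleAbsValues Multiset in
/-- Multiplicative form. -/
theorem T3_mulHeight_cross_le {K : Type} [Field K] [AdmissibleAbsValues K] (u w : Fin 3 → K) :
    mulHeight ![u 1 * w 2 - u 2 * w 1, u 2 * w 0 - u 0 * w 2, u 0 * w 1 - u 1 * w 0] ≤
      2 ^ totalWeight K * (mulHeight u * mulHeight w) := by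
  have H₀ : 1 ≤ 2 ^ totalWeight K * (mulHeight u * mulHeight w) := by
    have h1 : (1 : ℝ) ≤ 2 ^ totalWeight K := one_le_pow₀ (by norm_num)
    have h2 := one_le_mulHeight u
    have h3 := one_le_mulHeight w
    have h4 : (1 : ℝ) ≤ mulHeight u * mulHeight w := one_le_mul_of_one_le_of_one_le h2 h3
    exact one_le_mul_of_one_le_of_one_le h1 h4
  rcases eq_or_ne
    ![u 1 * w 2 - u 2 * w 1, u 2 * w 0 - u 0 * w 2, u 0 * w 1 - u 1 * w 0] 0 with h | h
  · rw [h, mulHeight_zero]
    exact H₀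
  rcases eq_or_ne u 0 with rfl | hu
  · exact absurd (by ext i; fin_cases i <;> simp) h
  rcases eq_or_ne w 0 with rfl | hw
  · exact absurd (by ext i; fin_cases i <;> simp) h
  rw [mulHeight_eq h, mulHeight_eq hu, mulHeight_eq hw, mul_mul_mul_comm, ← mul_assoc]
  refine mul_le_mul ?_ ?_ (finprod_nonneg fun v => Real.iSup_nonneg_of_nonnegHomClass v.val _) ?_
  · rw [← prod_map_mul, ← prod_replicate, totalWeight, ← map_const', ← prod_map_mul]
    refine prod_map_le_prod_map₀ _ _ (fun v _ ↦ Real.iSup_nonneg_of_nonnegHomClass v _) fun v _ ↦ ?_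
    exact T3_arch v u w
  · rw [← finprod_mul_distrib (by fun_prop) (by fun_prop)]
    refine finprod_le_finprod (by fun_prop)
      (fun v ↦ Real.iSup_nonneg_of_nonnegHomClass v.val _) (by fun_prop) fun v ↦ ?_
    exact T3_nonarch v.val (isNonarchimedean _ v.prop) u w
  · refine mul_nonneg (by positivity) (mul_nonneg ?_ ?_) <;>
      exact prod_map_nonneg fun v _ ↦ Real.iSup_nonneg_of_nonnegHomClass v _

/-- Height of a cross product. -/
theorem logHeight_cross_le {K : Type} [Field K] [NumberField K] (u w : Fin 3 → K) :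
    logHeight ![u 1 * w 2 - u 2 * w 1, u 2 * w 0 - u 0 * w 2, u 0 * w 1 - u 1 * w 0] ≤
      logHeight u + logHeight w + totalWeight K * Real.log 2 := by
  simp only [logHeight_eq_log_mulHeight]
  have h := Real.log_le_log (mulHeight_pos _) (T3_mulHeight_cross_le u w)
  rw [Real.log_mul (by positivity) (mul_ne_zero (mulHeight_ne_zero _) (mulHeight_ne_zero _)),
    Real.log_mul (mulHeight_ne_zero _) (mulHeight_ne_zero _), Real.log_pow] at h
  linarith

end Pool.Agent.LibUE49
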