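import Mathlib

set_option autoImplicit false
open Height

namespace Pool.Agent.LibUE49

/-- Height of a triple `(a, b, 1)`. -/
theorem logHeight_triple_one_le {K : Type} [Field K] [NumberField K] (a b : K) :
    logHeight ![a, b, 1] ≤ logHeight₁ a + logHeight₁ b := by
  have ha : ![a, 1] ≠ 0 := by simp
  have hb : ![b, 1] ≠ 0 := by simp
  rw [logHeight₁_eq_logHeight a, logHeight₁_eq_logHeight b, ← logHeight_fun_mul_eq ha hb]
  have h : ![a, b, 1] = (fun c : Fin 2 × Fin 2 => ![a, 1] c.1 * ![b, 1] c.2) ∘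
      (![(0, 1), (1, 0), (1, 1)] : Fin 3 → Fin 2 × Fin 2) := by
    ext i
    fin_cases i <;> simp
  rw [h]
  exact logHeight_comp_le _ _

/-- Projection to one coordinate. -/
theorem logHeight₁_le_triple {K : Type} [Field K] [NumberField K] (a b : K) :
    logHeight₁ a ≤ logHeight ![a, b, -1] := by
  have h1 : logHeight₁ a = logHeight ![a, -1] := by
    rw [← logHeight₁_div_eq_logHeight, div_neg, div_one, logHeight₁_neg]
  have h : ![a, -1] = ![a, b, -1] ∘ (![0, 2] : Fin 2 → Fin 3) := by
    ext i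
    fin_cases i <;> simp
  rw [h1, h]
  exact logHeight_comp_le _ _

/-- `h(1 - x) ≤ h(x) + d log 2`. -/
theorem logHeight₁_one_sub_le {K : Type} [Field K] [NumberField K] (x : K) :
    logHeight₁ (1 - x) ≤ logHeight₁ x + totalWeight K * Real.log 2 := by
  have h := logHeight₁_sub_le (1 : K) x
  rw [logHeight₁_one] at h
  linarith

/-- Roots of unity have height zero. -/
theorem logHeight₁_eq_zero_of_pow {K : Type} [Field K] [NumberField K] {x : K} {n : ℕ}
    (hn : 0 < n) (h : x ^ n = 1) : logHeight₁ x = 0 := by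
  have h1 := logHeight₁_pow x n
  rw [h, logHeight₁_one] at h1
  have h2 : (n : ℝ) ≠ 0 := by exact_mod_cast hn.ne'
  exact (mul_eq_zero.mp h1.symm).resolve_left h2

end Pool.Agent.LibUE49
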