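import Pool.Agent.LibUE49.T1
import Pool.Agent.LibUE49.T2
import Pool.Agent.LibUE49.T3a
import Pool.Agent.LibUE49.T3b

set_option autoImplicit false
open Height

namespace Pool.Agent.LibUE49

section len

open Polynomial

private theorem T4_len_eq (p : ℤ[X]) (n : ℕ) (h : p.natDegree < n) :
    len p = ∑ i ∈ Finset.range n, (p.coeff i).natAbs := by
  unfold len
  refine Finset.sum_subset ?_ ?_
  · intro i hi
    rw [Finset.mem_range]
    exact (le_natDegree_of_mem_supp i hi).trans_lt h
  · intro i _ hi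
    rw [notMem_support_iff.1 hi, Int.natAbs_zero]

private theorem T4_len_sub (p q : ℤ[X]) : len (p - q) ≤ len p + len q := by
  have h1 : (p - q).natDegree < max p.natDegree q.natDegree + 1 :=
    Nat.lt_succ_of_le (natDegree_sub_le p q)
  rw [T4_len_eq (p - q) _ h1,
    T4_len_eq p (max p.natDegree q.natDegree + 1) (Nat.lt_succ_of_le (le_max_left _ _)),
    T4_len_eq q (max p.natDegree q.natDegree + 1) (Nat.lt_succ_of_le (le_max_right _ _)),
    ← Finset.sum_add_distrib]
  refine Finset.sum_le_sum fun i _ => ?_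
  rw [coeff_sub]
  exact Int.natAbs_sub_le _ _

private theorem T4_len_X_mul (p : ℤ[X]) : len (X * p) = len p := by
  have h1 : (X * p).natDegree < p.natDegree + 1 + 1 := by
    have := natDegree_mul_le (p := (X : ℤ[X])) (q := p)
    have h2 := natDegree_X_le (R := ℤ)
    omega
  rw [T4_len_eq (X * p) _ h1, T4_len_eq p (p.natDegree + 1) (Nat.lt_succ_self _),
    Finset.sum_range_succ']
  simp

private theorem T4_len_one_sub_mul (p : ℤ[X]) : len ((1 - X) * p) ≤ 2 * len p := by
  have h1 : (1 - X) * p = p - X * p := by ring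
  rw [h1]
  refine (T4_len_sub _ _).trans ?_
  rw [T4_len_X_mul]
  omega

end len

private theorem T4_core {K : Type} [Field K] [NumberField K] (X Y u0 u1 w0 w1 w2 : K)
    (h1 : u0 * X + u1 * Y = 1) (h2 : w0 * X + w1 * Y = w2) (ht : u1 * w0 - u0 * w1 ≠ 0) :
    logHeight₁ X ≤ logHeight₁ u0 + logHeight₁ u1 + logHeight ![w0, w1, w2] +
      totalWeight K * Real.log 2 := by
  have h3 := logHeight_cross_le ![u0, u1, 1] ![w0, w1, w2]
  have h4 : ![(![u0, u1, 1] : Fin 3 → K) 1 * (![w0, w1, w2] : Fin 3 → K) 2 -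
        (![u0, u1, 1] : Fin 3 → K) 2 * (![w0, w1, w2] : Fin 3 → K) 1,
      (![u0, u1, 1] : Fin 3 → K) 2 * (![w0, w1, w2] : Fin 3 → K) 0 -
        (![u0, u1, 1] : Fin 3 → K) 0 * (![w0, w1, w2] : Fin 3 → K) 2,
      (![u0, u1, 1] : Fin 3 → K) 0 * (![w0, w1, w2] : Fin 3 → K) 1 -
        (![u0, u1, 1] : Fin 3 → K) 1 * (![w0, w1, w2] : Fin 3 → K) 0] =
      (u1 * w0 - u0 * w1) • ![X, Y, -1] := by
    ext i
    fin_cases i
    · simp only [Matrix.cons_val_zero, Matrix.cons_val_one, Matrix.cons_val, Fin.zero_eta,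
        Pi.smul_apply, smul_eq_mul]
      rw [← h2]
      linear_combination w1 * h1
    · simp only [Matrix.cons_val_zero, Matrix.cons_val_one, Matrix.cons_val, Fin.mk_one,
        Pi.smul_apply, smul_eq_mul]
      rw [← h2]
      linear_combination (-w0) * h1
    · simp only [Matrix.cons_val_zero, Matrix.cons_val_one, Matrix.cons_val, Fin.reduceFinMk,
        Pi.smul_apply, smul_eq_mul]
      ring
  rw [h4, logHeight_smul_eq_logHeight _ ht] at h3
  have h5 := logHeight₁_le_triple X Y
  have h6 := logHeight_triple_one_le u0 u1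
  linarith

/-- The gap principle, `N = 0`: two different solutions are far apart. -/
theorem gap_zero {K : Type} [Field K] [NumberField K] {x z : K} (hx : x ≠ 0) (hx1 : 1 - x ≠ 0)
    (hxz : z ≠ x) :
    logHeight₁ x ≤ logHeight₁ (z / x) + logHeight₁ ((1 - z) / (1 - x)) +
      totalWeight K * Real.log 2 := by
  have h1 := T4_core x (1 - x) (z / x) ((1 - z) / (1 - x)) 1 1 1
    (by rw [div_mul_cancel₀ _ hx, div_mul_cancel₀ _ hx1]; ring) (by ring) (by
      intro h
      apply hxz
      rw [mul_one, mul_one, sub_eq_zero, div_eq_div_iff hx1 hx] at h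
      linear_combination -h)
  have h2 := logHeight_triple_one_le (1 : K) 1
  have h3 : logHeight₁ (1 : K) = 0 := logHeight₁_eq_zero_of_pow (n := 1) one_pos (by simp)
  rw [h3] at h2
  linarith

/-- The gap principle: a solution `z` is far from the `(2N+1)`-st power of a solution `x`. -/
theorem gap {K : Type} [Field K] [NumberField K] {x z : K} (hx : x ≠ 0) (hx1 : 1 - x ≠ 0)
    (hx6 : x ^ 2 - x + 1 ≠ 0) (N : ℕ) :
    ((N : ℝ) - 2) * logHeight₁ x ≤
      logHeight₁ (z / x ^ (2 * N + 1)) + logHeight₁ ((1 - z) / (1 - x) ^ (2 * N + 1)) +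
      totalWeight K * ((6 * N + 10) * Real.log 2) := by
  obtain ⟨A, B, D, hdeg, hlen, hpade, hdet⟩ := exists_pade
  obtain ⟨c, hc, hdet⟩ := hdet N
  have hxn : x ^ (2 * N + 1) ≠ 0 := pow_ne_zero _ hx
  have hyn : (1 - x) ^ (2 * N + 1) ≠ 0 := pow_ne_zero _ hx1
  have hh : 0 ≤ logHeight₁ x := zero_le_logHeight₁ x
  have hd : 0 ≤ (totalWeight K : ℝ) * Real.log 2 :=
    mul_nonneg (Nat.cast_nonneg _) (Real.log_nonneg (by norm_num))
  have hpow : logHeight₁ (x ^ (2 * N + 1)) = (2 * N + 1 : ℝ) * logHeight₁ x := by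
    rw [logHeight₁_pow]
    push_cast
    ring
  set a : K := z / x ^ (2 * N + 1) with ha
  set b : K := (1 - z) / (1 - x) ^ (2 * N + 1) with hb
  have hab : a * x ^ (2 * N + 1) + b * (1 - x) ^ (2 * N + 1) = 1 := by
    rw [ha, hb, div_mul_cancel₀ _ hxn, div_mul_cancel₀ _ hyn]
    ring
  -- the relations at `x`
  have hr : ∀ M, Polynomial.aeval x (A M) * x ^ (2 * M + 1) +
      Polynomial.aeval x (B M) * (1 - x) ^ (2 * M + 1) = Polynomial.aeval x (D M) := by
    intro M
    have := congrArg (Polynomial.aeval x) (hpade M)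
    simpa using this
  have hdet' : Polynomial.aeval x (A N) * ((1 - x) ^ 2 * Polynomial.aeval x (B (N + 1))) -
      Polynomial.aeval x (B N) * (x ^ 2 * Polynomial.aeval x (A (N + 1))) =
      (c : K) * (x ^ 2 - x + 1) := by
    have := congrArg (Polynomial.aeval x) hdet
    simpa using this
  have hdet0 : (c : K) * (x ^ 2 - x + 1) ≠ 0 := mul_ne_zero (by exact_mod_cast hc) hx6
  by_cases ht1 : b * Polynomial.aeval x (A N) - a * Polynomial.aeval x (B N) ≠ 0
  · -- first row
    have h1 := T4_core _ _ a b _ _ _ hab (hr N) ht1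
    have h2 := logHeight_triple_le N (2 ^ (6 * N + 1)) Nat.one_le_two_pow (A N) (B N) (D N)
      (hdeg N).1 (hdeg N).2.1 (hdeg N).2.2 (hlen N).1 (hlen N).2.1 (hlen N).2.2 x
    have h3 : Real.log ((2 ^ (6 * N + 1) : ℕ) : ℝ) = (6 * N + 1 : ℝ) * Real.log 2 := by
      push_cast
      rw [Real.log_pow]
      push_cast
      ring
    rw [h3] at h2
    rw [hpow] at h1
    nlinarith
  · -- second row
    push Not at ht1
    have ht2 : b * (x ^ 2 * Polynomial.aeval x (A (N + 1))) -
        a * ((1 - x) ^ 2 * Polynomial.aeval x (B (N + 1))) ≠ 0 := by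
      intro ht2
      have ha0 : a * ((c : K) * (x ^ 2 - x + 1)) = 0 := by
        rw [← hdet']
        linear_combination (x ^ 2 * Polynomial.aeval x (A (N + 1))) * ht1 -
          Polynomial.aeval x (A N) * ht2
      have hb0 : b * ((c : K) * (x ^ 2 - x + 1)) = 0 := by
        rw [← hdet']
        linear_combination ((1 - x) ^ 2 * Polynomial.aeval x (B (N + 1))) * ht1 -
          Polynomial.aeval x (B N) * ht2
      have ha1 : a = 0 := (mul_eq_zero.1 ha0).resolve_right hdet0
      have hb1 : b = 0 := (mul_eq_zero.1 hb0).resolve_right hdet0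
      rw [ha1, hb1] at hab
      simp at hab
    have hr2 : x ^ 2 * Polynomial.aeval x (A (N + 1)) * x ^ (2 * N + 1) +
        (1 - x) ^ 2 * Polynomial.aeval x (B (N + 1)) * (1 - x) ^ (2 * N + 1) =
        Polynomial.aeval x (D (N + 1)) := by
      rw [← hr (N + 1)]
      ring
    have h1 := T4_core _ _ a b _ _ _ hab hr2 ht2
    have h2 := logHeight_triple_le (N + 3) (2 ^ (6 * N + 9)) Nat.one_le_two_pow
      (Polynomial.X * (Polynomial.X * A (N + 1)))
      ((1 - Polynomial.X) * ((1 - Polynomial.X) * B (N + 1))) (D (N + 1))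
      (by
        have e1 := (hdeg (N + 1)).1
        have e2 := Polynomial.natDegree_mul_le (p := (Polynomial.X : Polynomial ℤ))
          (q := Polynomial.X * A (N + 1))
        have e3 := Polynomial.natDegree_mul_le (p := (Polynomial.X : Polynomial ℤ))
          (q := A (N + 1))
        have e4 := Polynomial.natDegree_X_le (R := ℤ)
        omega)
      (by
        have e1 := (hdeg (N + 1)).2.1
        have e2 := Polynomial.natDegree_mul_le (p := (1 - Polynomial.X : Polynomial ℤ))
          (q := (1 - Polynomial.X) * B (N + 1))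
        have e3 := Polynomial.natDegree_mul_le (p := (1 - Polynomial.X : Polynomial ℤ))
          (q := B (N + 1))
        have e4 : (1 - Polynomial.X : Polynomial ℤ).natDegree ≤ 1 := by
          refine (Polynomial.natDegree_sub_le _ _).trans ?_
          simp
        omega)
      ((hdeg (N + 1)).2.2.trans (by omega))
      (by
        rw [T4_len_X_mul, T4_len_X_mul]
        refine (hlen (N + 1)).1.trans ?_
        exact Nat.pow_le_pow_right (by norm_num) (by omega))
      (by
        refine (T4_len_one_sub_mul _).trans ?_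
        have e1 := T4_len_one_sub_mul (B (N + 1))
        have e2 := (hlen (N + 1)).2.1
        have e3 : 2 ^ (6 * N + 9) = 2 * (2 * 2 ^ (6 * (N + 1) + 1)) := by
          rw [show 6 * N + 9 = (6 * (N + 1) + 1) + 2 by ring, pow_add]
          ring
        rw [e3]
        exact Nat.mul_le_mul_left 2 (e1.trans (Nat.mul_le_mul_left 2 e2)))
      ((hlen (N + 1)).2.2.trans (Nat.pow_le_pow_right (by norm_num) (by omega))) x
    have h3 : Real.log ((2 ^ (6 * N + 9) : ℕ) : ℝ) = (6 * N + 9 : ℝ) * Real.log 2 := by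
      push_cast
      rw [Real.log_pow]
      push_cast
      ring
    have h4 : Polynomial.aeval x (Polynomial.X * (Polynomial.X * A (N + 1))) =
        x ^ 2 * Polynomial.aeval x (A (N + 1)) := by
      rw [map_mul, map_mul, Polynomial.aeval_X]
      ring
    have h5 : Polynomial.aeval x ((1 - Polynomial.X) * ((1 - Polynomial.X) * B (N + 1))) =
        (1 - x) ^ 2 * Polynomial.aeval x (B (N + 1)) := by
      rw [map_mul, map_mul, map_sub, map_one, Polynomial.aeval_X]
      ring
    rw [h3, h4, h5] at h2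
    rw [hpow] at h1
    push_cast at h2
    nlinarith

end Pool.Agent.LibUE49
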