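import Mathlib

set_option autoImplicit false
open Height

namespace Pool.Agent.LibUE49

/-- The linear form `α ↦ ∑ α_j log |g_j|_v`. -/
noncomputable def T5lin {K : Type} [Field K] {r : ℕ} (g : Fin r → Kˣ) (v : AbsoluteValue K ℝ)
    (α : Fin r → ℝ) : ℝ := ∑ j, α j * Real.log (v (g j : K))

theorem T5lin_add {K : Type} [Field K] {r : ℕ} (g : Fin r → Kˣ) (v : AbsoluteValue K ℝ)
    (α β : Fin r → ℝ) : T5lin g v (α + β) = T5lin g v α + T5lin g v β := by
  simp only [T5lin, Pi.add_apply, add_mul, Finset.sum_add_distrib]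

theorem T5lin_smul {K : Type} [Field K] {r : ℕ} (g : Fin r → Kˣ) (v : AbsoluteValue K ℝ)
    (c : ℝ) (α : Fin r → ℝ) : T5lin g v (c • α) = c * T5lin g v α := by
  simp only [T5lin, Pi.smul_apply, smul_eq_mul, Finset.mul_sum, mul_assoc]

theorem T5lin_int {K : Type} [Field K] {r : ℕ} (g : Fin r → Kˣ) (v : AbsoluteValue K ℝ)
    (a : Fin r → ℤ) :
    T5lin g v (fun j => (a j : ℝ)) = Real.log (v (((∏ j, g j ^ a j : Kˣ)) : K)) := by
  have h1 : v (((∏ j, g j ^ a j : Kˣ)) : K) = ∏ j, v (g j : K) ^ a j := by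
    rw [Units.coe_prod, map_prod]
    refine Finset.prod_congr rfl fun j _ => ?_
    rw [Units.val_zpow_eq_zpow_val, map_zpow₀]
  rw [h1, Real.log_prod]
  · simp only [T5lin, Real.log_zpow]
  · intro j _
    apply zpow_ne_zero
    rw [v.ne_zero_iff]
    exact (g j).ne_zero

/-- The height on a finitely generated multiplicative group extends to a seminorm. By the product
formula `h(x) = 1/2 ∑_v |log |x|_v|`, so one can take
`p(α) = 1/2 ∑_v |∑_j α_j log |g_j|_v|`. -/
theorem exists_seminorm {K : Type} [Field K] [NumberField K] {r : ℕ} (g : Fin r → Kˣ) :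
    ∃ p : Seminorm ℝ (Fin r → ℝ), ∀ a : Fin r → ℤ,
      p (fun j => (a j : ℝ)) = logHeight₁ (((∏ j, g j ^ a j : Kˣ)) : K) := by
  classical
  open AdmissibleAbsValues in
  have hfin : ∀ j, (Function.mulSupport
      (fun v : (nonarchAbsVal (K := K)) => v.val (g j : K))).Finite := fun j =>
    hasFiniteMulSupport (g j).ne_zero
  open AdmissibleAbsValues in
  let S : Finset (nonarchAbsVal (K := K)) := Finset.univ.biUnion fun j => (hfin j).toFinset
  have hS : ∀ v : (AdmissibleAbsValues.nonarchAbsVal (K := K)), v ∉ S →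
      ∀ α, T5lin g v.val α = 0 := by
    intro v hv α
    refine Finset.sum_eq_zero fun j _ => ?_
    have : v.val (g j : K) = 1 := by
      by_contra h
      exact hv (Finset.mem_biUnion.mpr ⟨j, Finset.mem_univ _, (hfin j).mem_toFinset.mpr h⟩)
    rw [this, Real.log_one, mul_zero]
  let f : (Fin r → ℝ) → ℝ := fun α =>
    2⁻¹ * (((AdmissibleAbsValues.archAbsVal (K := K)).map fun v => |T5lin g v α|).sum +
      ∑ v ∈ S, |T5lin g v.val α|)
  have hadd : ∀ α β, f (α + β) ≤ f α + f β := by
    intro α β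
    simp only [f]
    rw [← mul_add]
    refine mul_le_mul_of_nonneg_left ?_ (by norm_num)
    have h1 : ((AdmissibleAbsValues.archAbsVal (K := K)).map fun v => |T5lin g v (α + β)|).sum ≤
        ((AdmissibleAbsValues.archAbsVal (K := K)).map fun v => |T5lin g v α|).sum +
        ((AdmissibleAbsValues.archAbsVal (K := K)).map fun v => |T5lin g v β|).sum := by
      rw [← Multiset.sum_map_add]
      refine Multiset.sum_map_le_sum_map _ _ fun v _ => ?_
      rw [T5lin_add]
      exact abs_add_le _ _
    have h2 : ∑ v ∈ S, |T5lin g v.val (α + β)| ≤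
        ∑ v ∈ S, |T5lin g v.val α| + ∑ v ∈ S, |T5lin g v.val β| := by
      rw [← Finset.sum_add_distrib]
      refine Finset.sum_le_sum fun v _ => ?_
      rw [T5lin_add]
      exact abs_add_le _ _
    linarith
  have hsmul : ∀ (c : ℝ) α, f (c • α) = ‖c‖ * f α := by
    intro c α
    simp only [f, T5lin_smul, abs_mul, Multiset.sum_map_mul_left, ← Finset.mul_sum,
      Real.norm_eq_abs]
    ring
  refine ⟨Seminorm.of f hadd hsmul, fun a => ?_⟩
  change f _ = _
  set x : K := (((∏ j, g j ^ a j : Kˣ)) : K) with hx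
  have hx0 : x ≠ 0 := Units.ne_zero _
  have hpf := AdmissibleAbsValues.product_formula hx0
  have hlog : ((AdmissibleAbsValues.archAbsVal (K := K)).map fun v => Real.log (v x)).sum +
      ∑ᶠ v : (AdmissibleAbsValues.nonarchAbsVal (K := K)), Real.log (v.val x) = 0 := by
    have h := congrArg Real.log hpf
    rw [Real.log_one, Real.log_mul (left_ne_zero_of_mul_eq_one hpf)
      (right_ne_zero_of_mul_eq_one hpf), Real.log_multiset_prod, Multiset.map_map,
      Real.log_finprod] at h
    · exact h
    · intro v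
      exact v.val.pos hx0
    · intro y hy
      obtain ⟨v, _, rfl⟩ := Multiset.mem_map.mp hy
      exact v.ne_zero hx0
  have hsup : ∀ (F : ℝ → ℝ), F 0 = 0 →
      ∑ᶠ v : (AdmissibleAbsValues.nonarchAbsVal (K := K)), F (Real.log (v.val x)) =
        ∑ v ∈ S, F (Real.log (v.val x)) := by
    intro F hF
    apply finsum_eq_sum_of_support_subset
    intro v hv
    by_contra h
    apply hv
    have := hS v h (fun j => (a j : ℝ))
    rw [T5lin_int] at this
    rw [← hx] at this
    simp only [this, hF]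
  have hp : ∀ t : ℝ, Real.posLog t = 2⁻¹ * (|Real.log t| + Real.log t) := by
    intro t
    rw [← Real.half_mul_log_add_log_abs]
    ring
  rw [logHeight₁_eq]
  simp only [f, T5lin_int, ← hx]
  simp only [hp]
  rw [hsup (fun t => 2⁻¹ * (|t| + t)) (by simp)]
  have h3 := hsup (fun t => t) rfl
  rw [h3] at hlog
  rw [Multiset.sum_map_mul_left, Multiset.sum_map_add, ← Finset.mul_sum,
    Finset.sum_add_distrib]
  linarith

end Pool.Agent.LibUE49
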