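import Mathlib

set_option autoImplicit false

namespace Pool.Agent.LibUE49

open MeasureTheory Metric Set Module in
private theorem T6_norm {E : Type} [NormedAddCommGroup E] [NormedSpace ℝ E]
    [FiniteDimensional ℝ E] {ι : Type} (s : Finset ι) (u : ι → E) {R δ : ℝ} (hR0 : 0 ≤ R)
    (hδ : 0 < δ) (hR : ∀ i ∈ s, ‖u i‖ ≤ R)
    (hsep : ∀ i ∈ s, ∀ j ∈ s, i ≠ j → δ ≤ ‖u i - u j‖) :
    (s.card : ℝ) ≤ (1 + 2 * R / δ) ^ finrank ℝ E := by
  borelize E
  let μ : Measure E := Measure.addHaar
  have hδ2 : 0 < δ / 2 := by positivity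
  have hρ : 0 < R + δ / 2 := by positivity
  set A := ⋃ i ∈ s, ball (u i) (δ / 2) with hA
  have D : (s : Set ι).Pairwise (Function.onFun Disjoint fun i => ball (u i) (δ / 2)) := by
    rintro i hi j hj hij
    apply ball_disjoint_ball
    rw [dist_eq_norm]
    have := hsep i hi j hj hij
    linarith
  have A_subset : A ⊆ ball (0 : E) (R + δ / 2) := by
    refine iUnion₂_subset fun i hi => ?_
    apply ball_subset_ball'
    rw [dist_zero_right]
    have := hR i hi
    linarith
  have I : (s.card : ENNReal) * ENNReal.ofReal ((δ / 2) ^ finrank ℝ E) * μ (ball 0 1) ≤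
      ENNReal.ofReal ((R + δ / 2) ^ finrank ℝ E) * μ (ball 0 1) :=
    calc
      (s.card : ENNReal) * ENNReal.ofReal ((δ / 2) ^ finrank ℝ E) * μ (ball 0 1) = μ A := by
        rw [hA, measure_biUnion_finset D fun c _ => measurableSet_ball]
        simp only [μ.addHaar_ball_of_pos _ hδ2]
        simp only [Finset.sum_const, nsmul_eq_mul, mul_assoc]
      _ ≤ μ (ball (0 : E) (R + δ / 2)) := measure_mono A_subset
      _ = ENNReal.ofReal ((R + δ / 2) ^ finrank ℝ E) * μ (ball 0 1) := by
        simp only [μ.addHaar_ball_of_pos _ hρ]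
  have J : (s.card : ENNReal) * ENNReal.ofReal ((δ / 2) ^ finrank ℝ E) ≤
      ENNReal.ofReal ((R + δ / 2) ^ finrank ℝ E) :=
    (ENNReal.mul_le_mul_iff_left (measure_ball_pos _ _ zero_lt_one).ne' measure_ball_lt_top.ne).1 I
  have K : (s.card : ℝ) * (δ / 2) ^ finrank ℝ E ≤ (R + δ / 2) ^ finrank ℝ E := by
    have h1 := ENNReal.toReal_le_of_le_ofReal (pow_nonneg hρ.le _) J
    rwa [ENNReal.toReal_mul, ENNReal.toReal_natCast,
      ENNReal.toReal_ofReal (pow_nonneg hδ2.le _)] at h1
  rw [← le_div_iff₀ (pow_pos hδ2 _), ← div_pow] at K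
  refine K.trans (le_of_eq ?_)
  congr 1
  field_simp
  ring

/-- Volume packing: in a finite-dimensional space with a seminorm `p`, a family of vectors with
`p ≤ R`, pairwise at `p`-distance at least `δ`, has at most `(1 + 2R/δ)^n` members. -/
theorem packing {E : Type} [AddCommGroup E] [Module ℝ E] [FiniteDimensional ℝ E]
    (p : Seminorm ℝ E) {ι : Type} (s : Finset ι) (u : ι → E) {R δ : ℝ} (hR0 : 0 ≤ R) (hδ : 0 < δ)
    (hR : ∀ i ∈ s, p (u i) ≤ R) (hsep : ∀ i ∈ s, ∀ j ∈ s, i ≠ j → δ ≤ p (u i - u j)) :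
    (s.card : ℝ) ≤ (1 + 2 * R / δ) ^ Module.finrank ℝ E := by
  letI : SeminormedAddCommGroup E := p.toAddGroupSeminorm.toSeminormedAddCommGroup
  letI : NormedSpace ℝ E :=
    { (inferInstance : Module ℝ E) with norm_smul_le := fun a b => (map_smul_eq_mul p a b).le }
  have hnorm : ∀ x : E, ‖x‖ = p x := fun _ => rfl
  let π : E →ₗ[ℝ] SeparationQuotient E := (SeparationQuotient.mkCLM ℝ E : E →ₗ[ℝ] _)
  have hsurj : Function.Surjective π := SeparationQuotient.surjective_mk
  have hfin : FiniteDimensional ℝ (SeparationQuotient E) := Module.Finite.of_surjective π hsurj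
  have hπ : ∀ x, ‖π x‖ = p x := fun x => SeparationQuotient.norm_mk x
  have hrank : Module.finrank ℝ (SeparationQuotient E) ≤ Module.finrank ℝ E :=
    LinearMap.finrank_le_finrank_of_surjective hsurj
  have h1 := T6_norm s (fun i => π (u i)) hR0 hδ (fun i hi => by rw [hπ]; exact hR i hi)
    (fun i hi j hj hij => by rw [← map_sub, hπ]; exact hsep i hi j hj hij)
  refine h1.trans (pow_le_pow_right₀ ?_ hrank)
  have : 0 ≤ 2 * R / δ := by positivity
  linarith

end Pool.Agent.LibUE49
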