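import Pool.Agent.LibUE49.T6

set_option autoImplicit false

namespace Pool.Agent.LibUE49

private def T7_sep {E : Type} [AddCommGroup E] [Module ℝ E] (p : Seminorm ℝ E) {ι : Type}
    (u : ι → E) (δ : ℝ) (c : Finset ι) : Prop :=
  ∀ i ∈ c, ∀ j ∈ c, i ≠ j → δ ≤ p (u i - u j)

/-- Covering form of the packing lemma: if every `δ`-ball around a member contains at most `m`
members, then there are at most `m (1 + 2R/δ)^n` members. -/
theorem covering {E : Type} [AddCommGroup E] [Module ℝ E] [FiniteDimensional ℝ E]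
    (p : Seminorm ℝ E) {ι : Type} [DecidableEq ι] (s : Finset ι) (u : ι → E) {R δ : ℝ}
    (hR0 : 0 ≤ R) (hδ : 0 < δ) (hR : ∀ i ∈ s, p (u i) ≤ R) (m : ℕ)
    (hm : ∀ i ∈ s, ∀ t ⊆ s, (∀ j ∈ t, p (u j - u i) < δ) → t.card ≤ m) :
    (s.card : ℝ) ≤ m * (1 + 2 * R / δ) ^ Module.finrank ℝ E := by
  classical
  -- a maximal separated subset
  obtain ⟨c, hc, hmax⟩ := Finset.exists_max_image
    (s.powerset.filter fun c => T7_sep p u δ c)
    (fun c => c.card) ⟨∅, by simp [T7_sep]⟩
  rw [Finset.mem_filter, Finset.mem_powerset] at hc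
  obtain ⟨hcs, hsep⟩ := hc
  have hpack := packing p c u hR0 hδ (fun i hi => hR i (hcs hi)) hsep
  have hcov : ∀ i ∈ s, ∃ j ∈ c, p (u i - u j) < δ := by
    intro i hi
    by_contra hcon
    push Not at hcon
    have hic : i ∉ c := by
      intro h
      have := hcon i h
      rw [sub_self, map_zero] at this
      exact absurd this (not_le.2 hδ)
    have h1 : insert i c ∈ s.powerset.filter fun c => T7_sep p u δ c := by
      rw [Finset.mem_filter, Finset.mem_powerset]
      refine ⟨Finset.insert_subset hi hcs, ?_⟩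
      intro a ha b hb hab
      rw [Finset.mem_insert] at ha hb
      rcases ha with rfl | ha
      · rcases hb with rfl | hb
        · exact absurd rfl hab
        · exact hcon b hb
      · rcases hb with rfl | hb
        · rw [map_sub_rev]
          exact hcon a ha
        · exact hsep a ha b hb hab
    have h2 := hmax _ h1
    rw [Finset.card_insert_of_notMem hic] at h2
    omega
  have hsub : s ⊆ c.biUnion fun j => s.filter fun i => p (u i - u j) < δ := by
    intro i hi
    obtain ⟨j, hj, h1⟩ := hcov i hi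
    rw [Finset.mem_biUnion]
    exact ⟨j, hj, Finset.mem_filter.2 ⟨hi, h1⟩⟩
  have hcard : s.card ≤ c.card * m := by
    refine (Finset.card_le_card hsub).trans (Finset.card_biUnion_le_card_mul _ _ _ ?_)
    intro j hj
    refine hm j (hcs hj) _ (Finset.filter_subset _ _) ?_
    intro i hi
    exact (Finset.mem_filter.1 hi).2
  have h3 : (s.card : ℝ) ≤ c.card * m := by exact_mod_cast hcard
  have h4 : (c.card : ℝ) * m ≤ (1 + 2 * R / δ) ^ Module.finrank ℝ E * m :=
    mul_le_mul_of_nonneg_right hpack (Nat.cast_nonneg _)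
  linarith

end Pool.Agent.LibUE49
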