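import Pool.Agent.LibUE49.T7a

set_option autoImplicit false

namespace Pool.Agent.LibUE49

private theorem T7_chain {ι : Type} [DecidableEq ι] (f : ι → ℝ) (n : ℕ) :
    ∀ t : Finset ι, t.card = n + 1 → (∀ i ∈ t, 0 < f i) →
      (∀ i ∈ t, ∀ j ∈ t, i ≠ j → f i ≤ f j → 1.2 * f i ≤ f j) →
      ∃ i ∈ t, ∃ j ∈ t, 1.2 ^ n * f i ≤ f j := by
  induction n with
  | zero =>
    intro t ht _ _
    obtain ⟨i, hi⟩ := Finset.card_pos.1 (by omega : 0 < t.card)
    exact ⟨i, hi, i, hi, by simp⟩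
  | succ n ih =>
    intro t ht h0 h1
    obtain ⟨j, hj, hjmax⟩ := Finset.exists_max_image t f (Finset.card_pos.1 (by omega))
    obtain ⟨i, hi, j', hj', h2⟩ := ih (t.erase j) (by rw [Finset.card_erase_of_mem hj]; omega)
      (fun i hi => h0 i (Finset.mem_of_mem_erase hi))
      (fun a ha b hb => h1 a (Finset.mem_of_mem_erase ha) b (Finset.mem_of_mem_erase hb))
    have h3 := h1 j' (Finset.mem_of_mem_erase hj') j hj (Finset.ne_of_mem_erase hj')
      (hjmax _ (Finset.mem_of_mem_erase hj'))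
    refine ⟨i, Finset.mem_of_mem_erase hi, j, hj, ?_⟩
    rw [pow_succ]
    nlinarith

private theorem T7_pair {E : Type} [AddCommGroup E] [Module ℝ E] (p : Seminorm ℝ E) (x y : E)
    (hx : 0 < p x) (hy : 0 < p y) (hxy : p x ≤ p y)
    (hd : p ((p y)⁻¹ • y - (p x)⁻¹ • x) < 0.08)
    (h1 : 0.4 * p x ≤ p (y - x))
    (h2 : ∀ N : ℕ, (0.4 * N - 1.2) * p x ≤ p (y - ((2 * N + 1 : ℕ) : ℝ) • x)) :
    1.2 * p x ≤ p y ∧ p y < 20 * p x := by
  have e1 : y - (p y / p x) • x = p y • ((p y)⁻¹ • y - (p x)⁻¹ • x) := by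
    rw [smul_sub, smul_smul, smul_smul, mul_inv_cancel₀ hy.ne', one_smul, ← div_eq_mul_inv]
  have e2 : p (y - (p y / p x) • x) < 0.08 * p y := by
    rw [e1, map_smul_eq_mul, Real.norm_of_nonneg hy.le, mul_comm]
    exact mul_lt_mul_of_pos_right hd hy
  have e3 : ∀ r : ℝ, p (y - r • x) ≤ 0.08 * p y + |p y - r * p x| := by
    intro r
    have e4 : y - r • x = (y - (p y / p x) • x) + (p y / p x - r) • x := by
      rw [sub_smul]
      abel
    rw [e4]
    refine (map_add_le_add p _ _).trans (add_le_add e2.le ?_)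
    rw [map_smul_eq_mul, Real.norm_eq_abs]
    have e5 : |p y / p x - r| * p x = |p y - r * p x| := by
      rw [← abs_of_pos hx, ← abs_mul, abs_of_pos hx, sub_mul, div_mul_cancel₀ _ hx.ne']
    rw [e5]
  constructor
  · have h3 := e3 1
    rw [one_smul, one_mul, abs_of_nonneg (by linarith)] at h3
    linarith
  · set N := ⌊p y / (2 * p x)⌋₊ with hN
    have hpos : 0 ≤ p y / (2 * p x) := by positivity
    have f1 : (N : ℝ) ≤ p y / (2 * p x) := Nat.floor_le hpos
    have f2 : p y / (2 * p x) < N + 1 := Nat.lt_floor_add_one _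
    rw [le_div_iff₀ (by linarith)] at f1
    rw [div_lt_iff₀ (by linarith)] at f2
    have h3 := e3 ((2 * N + 1 : ℕ) : ℝ)
    have h4 := h2 N
    have h5 : |p y - ((2 * N + 1 : ℕ) : ℝ) * p x| ≤ p x := by
      push_cast
      rw [abs_le]
      constructor <;> nlinarith
    have h6 : (0.4 * (N : ℝ) - 1.2) * p x ≤ 0.08 * p y + p x := by linarith
    have h7 : (0.24 * (N : ℝ) - 2.36) * p x < 0 := by nlinarith
    have h8 : 0.24 * (N : ℝ) - 2.36 < 0 := by
      by_contra hcon
      push Not at hcon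
      have := mul_nonneg hcon hx.le
      linarith
    have h9 : N ≤ 9 := by
      by_contra hcon
      have : (10 : ℝ) ≤ N := by exact_mod_cast (by omega : 10 ≤ N)
      linarith
    have h10 : (N : ℝ) ≤ 9 := by exact_mod_cast h9
    nlinarith

/-- The large solutions. -/
theorem large {E : Type} [AddCommGroup E] [Module ℝ E] [FiniteDimensional ℝ E]
    (p : Seminorm ℝ E) {ι : Type} (s : Finset ι) (u : ι → E) (h0 : ∀ i ∈ s, 0 < p (u i))
    (h1 : ∀ i ∈ s, ∀ j ∈ s, i ≠ j → 0.4 * p (u i) ≤ p (u j - u i))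
    (h2 : ∀ i ∈ s, ∀ j ∈ s, i ≠ j → ∀ N : ℕ,
      (0.4 * N - 1.2) * p (u i) ≤ p (u j - ((2 * N + 1 : ℕ) : ℝ) • u i)) :
    (s.card : ℝ) ≤ 18 * 51 ^ Module.finrank ℝ E := by
  classical
  have hcov := covering p s (fun i => (p (u i))⁻¹ • u i) (R := 1) (δ := 0.04) (by norm_num)
    (by norm_num) (by
      intro i hi
      rw [map_smul_eq_mul, norm_inv, Real.norm_of_nonneg (h0 i hi).le,
        inv_mul_cancel₀ (h0 i hi).ne']) 18 (by
      intro i hi t hts ht
      by_contra hcon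
      push Not at hcon
      have hpair : ∀ j ∈ t, ∀ k ∈ t, j ≠ k → p (u j) ≤ p (u k) →
          1.2 * p (u j) ≤ p (u k) ∧ p (u k) < 20 * p (u j) := by
        intro j hj k hk hjk hle
        refine T7_pair p (u j) (u k) (h0 j (hts hj)) (h0 k (hts hk)) hle ?_
          (h1 j (hts hj) k (hts hk) hjk) (h2 j (hts hj) k (hts hk) hjk)
        have e1 : (p (u k))⁻¹ • u k - (p (u j))⁻¹ • u j =
            ((p (u k))⁻¹ • u k - (p (u i))⁻¹ • u i) -
              ((p (u j))⁻¹ • u j - (p (u i))⁻¹ • u i) := by abel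
        have e2 := ht k hk
        have e3 := ht j hj
        rw [e1]
        refine (map_sub_le_add p _ _).trans_lt ?_
        linarith
      obtain ⟨t', ht', htc⟩ := Finset.exists_subset_card_eq (show 18 + 1 ≤ t.card by omega)
      obtain ⟨a, ha, b, hb, hab⟩ := T7_chain (fun j => p (u j)) 18 t' htc
        (fun j hj => h0 j (hts (ht' hj)))
        (fun j hj k hk hjk hle => (hpair j (ht' hj) k (ht' hk) hjk hle).1)
      have ha0 := h0 a (hts (ht' ha))
      have e4 : (26 : ℝ) ≤ 1.2 ^ 18 := by norm_num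
      have e5 : 26 * p (u a) ≤ p (u b) := by nlinarith
      by_cases hne : a = b
      · rw [hne] at e5 ha0
        linarith
      · have e6 := (hpair a (ht' ha) b (ht' hb) hne (by linarith)).2
        linarith)
  have h3 : (1 + 2 * 1 / 0.04 : ℝ) = 51 := by norm_num
  rw [h3] at hcov
  exact_mod_cast hcov

end Pool.Agent.LibUE49
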