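import Mathlib

set_option autoImplicit false
open Height

namespace Pool.Agent.LibUE49

/-- Frobenius modulo seven, by iterating
`(t + s)^7 = t^7 + s^7 + 7 t s (t + s) (t^2 + t s + s^2)^2`. -/
theorem T8a_list {K : Type} [Field K] (l : List K) :
    ∃ G : K, (l.map (fun t => t ^ 7)).sum = l.sum ^ 7 - 7 * G ∧
      ∀ v : AbsoluteValue K ℝ, IsNonarchimedean v → ∀ M : ℝ, 0 ≤ M → (∀ t ∈ l, v t ≤ M) →
        v G ≤ M ^ 7 ∧ v l.sum ≤ M := by
  induction l with
  | nil =>
    refine ⟨0, by simp, fun v _ M hM _ => ⟨?_, ?_⟩⟩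
    · rw [map_zero]; positivity
    · simpa using hM
  | cons t l ih =>
    obtain ⟨G, hG, hb⟩ := ih
    refine ⟨G + t * l.sum * (t + l.sum) * (t ^ 2 + t * l.sum + l.sum ^ 2) ^ 2, ?_, ?_⟩
    · rw [List.map_cons, List.sum_cons, List.sum_cons, hG]
      ring
    · intro v hv M hM ht
      obtain ⟨h1, h2⟩ := hb v hv M hM (fun x hx => ht x (List.mem_cons_of_mem _ hx))
      have h3 : v t ≤ M := ht t List.mem_cons_self
      have h4 : v (t + l.sum) ≤ M := (hv t l.sum).trans (max_le h3 h2)
      have h5 : v (t ^ 2 + t * l.sum + l.sum ^ 2) ≤ M ^ 2 := by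
        refine (hv _ _).trans (max_le ((hv _ _).trans (max_le ?_ ?_)) ?_)
        · rw [map_pow]
          exact pow_le_pow_left₀ (v.nonneg _) h3 2
        · rw [map_mul, pow_two]
          exact mul_le_mul h3 h2 (v.nonneg _) hM
        · rw [map_pow]
          exact pow_le_pow_left₀ (v.nonneg _) h2 2
      refine ⟨?_, ?_⟩
      · refine (hv _ _).trans (max_le h1 ?_)
        rw [map_mul, map_mul, map_mul, map_pow]
        calc v t * v l.sum * v (t + l.sum) * v (t ^ 2 + t * l.sum + l.sum ^ 2) ^ 2
            ≤ M * M * M * (M ^ 2) ^ 2 := by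
              gcongr
          _ = M ^ 7 := by ring
      · rw [List.sum_cons]
        exact h4

theorem T8a_support {K : Type} [Field K] [NumberField K] (x : K) :
    (Function.support fun v : (AdmissibleAbsValues.nonarchAbsVal (K := K)) =>
      Real.posLog (v.val x)).Finite := by
  rcases eq_or_ne x 0 with h | h
  · subst h
    simp
  · refine (AdmissibleAbsValues.hasFiniteMulSupport h).subset ?_
    intro v hv h1
    apply hv
    have : v.val x = 1 := h1
    simp [this]

theorem T8a_seven {K : Type} [Field K] [NumberField K] (v : AbsoluteValue K ℝ)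
    (hv : v ∈ AdmissibleAbsValues.archAbsVal (K := K)) : v (7 : K) = 7 := by
  have h : NumberField.IsInfinitePlace v := NumberField.mem_multisetInfinitePlace.mp hv
  obtain ⟨φ, rfl⟩ := h
  rw [NumberField.place_apply, map_ofNat]
  norm_num

/-- The Frobenius trick with `ℓ = 7`: three collinear points `(1,1), (a,b), (c,e)` of small height
have collinear seventh powers. -/
theorem det_pow_eq_zero {K : Type} [Field K] [NumberField K] {a b c e : K}
    (hdet : (a - 1) * (e - 1) - (b - 1) * (c - 1) = 0)
    (hh : 7 * (logHeight₁ a + logHeight₁ b + logHeight₁ c + logHeight₁ e) <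
      totalWeight K * Real.log (7 / 6)) :
    (a ^ 7 - 1) * (e ^ 7 - 1) - (b ^ 7 - 1) * (c ^ 7 - 1) = 0 := by
  obtain ⟨G, hG, hGb⟩ := T8a_list [a * e, -a, -e, -(b * c), b, c]
  have hsum : [a * e, -a, -e, -(b * c), b, c].sum = 0 := by
    rw [← hdet]
    simp only [List.sum_cons, List.sum_nil]
    ring
  rw [hsum] at hG
  have hD : (a ^ 7 - 1) * (e ^ 7 - 1) - (b ^ 7 - 1) * (c ^ 7 - 1) = -(7 * G) := by
    have : (a ^ 7 - 1) * (e ^ 7 - 1) - (b ^ 7 - 1) * (c ^ 7 - 1) =
        ([a * e, -a, -e, -(b * c), b, c].map (fun t => t ^ 7)).sum := by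
      simp only [List.map_cons, List.map_nil, List.sum_cons, List.sum_nil]
      ring
    rw [this, hG]
    ring
  rw [hD]
  by_cases hG0 : G = 0
  · rw [hG0]; simp
  exfalso
  -- the local bounds
  let L : AbsoluteValue K ℝ → ℝ := fun v =>
    Real.posLog (v a) + Real.posLog (v b) + Real.posLog (v c) + Real.posLog (v e)
  let M : AbsoluteValue K ℝ → ℝ := fun v =>
    max 1 (v a) * max 1 (v b) * max 1 (v c) * max 1 (v e)
  have hM0 : ∀ v, 0 < M v := fun v => by positivity
  have hML : ∀ v, Real.log (M v) = L v := by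
    intro v
    have h : ∀ x : K, max 1 (v x) ≠ 0 := fun x => by positivity
    simp only [M, L]
    rw [Real.log_mul (by positivity) (h _), Real.log_mul (by positivity) (h _),
      Real.log_mul (h _) (h _), ← Real.posLog_eq_log_max_one (v.nonneg _),
      ← Real.posLog_eq_log_max_one (v.nonneg _), ← Real.posLog_eq_log_max_one (v.nonneg _),
      ← Real.posLog_eq_log_max_one (v.nonneg _)]
  have hterm : ∀ v : AbsoluteValue K ℝ, ∀ t ∈ [a * e, -a, -e, -(b * c), b, c], v t ≤ M v := by
    intro v t ht
    have hA : 1 ≤ max 1 (v a) := le_max_left _ _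
    have hB : 1 ≤ max 1 (v b) := le_max_left _ _
    have hC : 1 ≤ max 1 (v c) := le_max_left _ _
    have hE : 1 ≤ max 1 (v e) := le_max_left _ _
    have hA' : v a ≤ max 1 (v a) := le_max_right _ _
    have hB' : v b ≤ max 1 (v b) := le_max_right _ _
    have hC' : v c ≤ max 1 (v c) := le_max_right _ _
    have hE' : v e ≤ max 1 (v e) := le_max_right _ _
    have hAB : 1 ≤ max 1 (v a) * max 1 (v b) := one_le_mul_of_one_le_of_one_le hA hB
    have hABC : 1 ≤ max 1 (v a) * max 1 (v b) * max 1 (v c) :=
      one_le_mul_of_one_le_of_one_le hAB hC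
    have kA : v a * 1 * 1 * 1 ≤ M v := by
      simp only [M]
      gcongr
    have kB : 1 * v b * 1 * 1 ≤ M v := by
      simp only [M]
      gcongr
    have kC : 1 * 1 * v c * 1 ≤ M v := by
      simp only [M]
      gcongr
    have kE : 1 * 1 * 1 * v e ≤ M v := by
      simp only [M]
      gcongr
    have kAE : v a * 1 * 1 * v e ≤ M v := by
      simp only [M]
      gcongr
    have kBC : 1 * v b * v c * 1 ≤ M v := by
      simp only [M]
      gcongr
    simp only [mul_one, one_mul] at kA kB kC kE kAE kBC
    simp only [List.mem_cons, List.not_mem_nil, or_false] at ht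
    rcases ht with rfl | rfl | rfl | rfl | rfl | rfl
    · rw [map_mul]; exact kAE
    · rw [v.map_neg]; exact kA
    · rw [v.map_neg]; exact kE
    · rw [v.map_neg, map_mul]; exact kBC
    · exact kB
    · exact kC
  have hnon : ∀ v : (AdmissibleAbsValues.nonarchAbsVal (K := K)),
      Real.log (v.val G) ≤ 7 * L v.val := by
    intro v
    have h := (hGb v.val (AdmissibleAbsValues.isNonarchimedean v.val v.2) (M v.val)
      (hM0 _).le (hterm v.val)).1
    have h2 := Real.log_le_log (v.val.pos hG0) h
    rw [Real.log_pow, hML] at h2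
    exact_mod_cast h2
  have harch : ∀ v ∈ (AdmissibleAbsValues.archAbsVal (K := K)),
      Real.log (v G) ≤ 7 * L v - Real.log (7 / 6) := by
    intro v hv
    have h7 := T8a_seven v hv
    have h1 : v (7 * G) ≤ 6 * M v ^ 7 := by
      have e1 : (7 * G) = -((a * e) ^ 7 + (-a) ^ 7 + (-e) ^ 7 + (-(b * c)) ^ 7 + b ^ 7 + c ^ 7) := by
        have := hG
        simp only [List.map_cons, List.map_nil, List.sum_cons, List.sum_nil] at this
        linear_combination this
      have hp : ∀ t ∈ [a * e, -a, -e, -(b * c), b, c], v (t ^ 7) ≤ M v ^ 7 := by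
        intro t ht
        rw [map_pow]
        exact pow_le_pow_left₀ (v.nonneg _) (hterm v t ht) 7
      have t1 := hp (a * e) (by simp)
      have t2 := hp (-a) (by simp)
      have t3 := hp (-e) (by simp)
      have t4 := hp (-(b * c)) (by simp)
      have t5 := hp b (by simp)
      have t6 := hp c (by simp)
      rw [e1, v.map_neg]
      have u1 := v.add_le ((a * e) ^ 7 + (-a) ^ 7 + (-e) ^ 7 + (-(b * c)) ^ 7 + b ^ 7) (c ^ 7)
      have u2 := v.add_le ((a * e) ^ 7 + (-a) ^ 7 + (-e) ^ 7 + (-(b * c)) ^ 7) (b ^ 7)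
      have u3 := v.add_le ((a * e) ^ 7 + (-a) ^ 7 + (-e) ^ 7) ((-(b * c)) ^ 7)
      have u4 := v.add_le ((a * e) ^ 7 + (-a) ^ 7) ((-e) ^ 7)
      have u5 := v.add_le ((a * e) ^ 7) ((-a) ^ 7)
      linarith
    rw [map_mul, h7] at h1
    have h2 : v G ≤ M v ^ 7 / (7 / 6) := by
      rw [le_div_iff₀ (by norm_num)]
      linarith
    have h3 := Real.log_le_log (v.pos hG0) h2
    rw [Real.log_div (pow_ne_zero _ (hM0 v).ne') (by norm_num), Real.log_pow, hML] at h3
    exact_mod_cast h3
  -- the product formula
  have hpf := AdmissibleAbsValues.product_formula hG0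
  have hlog : ((AdmissibleAbsValues.archAbsVal (K := K)).map fun v => Real.log (v G)).sum +
      ∑ᶠ v : (AdmissibleAbsValues.nonarchAbsVal (K := K)), Real.log (v.val G) = 0 := by
    have h := congrArg Real.log hpf
    rw [Real.log_one, Real.log_mul (left_ne_zero_of_mul_eq_one hpf)
      (right_ne_zero_of_mul_eq_one hpf), Real.log_multiset_prod, Multiset.map_map,
      Real.log_finprod] at h
    · exact h
    · intro v
      exact v.val.pos hG0
    · intro y hy
      obtain ⟨v, _, rfl⟩ := Multiset.mem_map.mp hy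
      exact v.ne_zero hG0
  have s1 : ((AdmissibleAbsValues.archAbsVal (K := K)).map fun v => Real.log (v G)).sum ≤
      ((AdmissibleAbsValues.archAbsVal (K := K)).map fun v =>
        (7 * L v + -Real.log (7 / 6))).sum := by
    refine Multiset.sum_map_le_sum_map _ _ fun v hv => ?_
    have := harch v hv
    linarith
  have s2 : ∑ᶠ v : (AdmissibleAbsValues.nonarchAbsVal (K := K)), Real.log (v.val G) ≤
      ∑ᶠ v : (AdmissibleAbsValues.nonarchAbsVal (K := K)), 7 * L v.val := by
    refine finsum_le_finsum' ?_ ?_ hnon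
    · refine (AdmissibleAbsValues.hasFiniteMulSupport hG0).subset ?_
      intro v hv h1
      apply hv
      have : v.val G = 1 := h1
      simp [this]
    · refine ((((T8a_support a).union (T8a_support b)).union (T8a_support c)).union
        (T8a_support e)).subset ?_
      intro v hv
      by_contra h
      apply hv
      simp only [Set.mem_union, Function.mem_support, not_or, not_not] at h
      simp only [L, h.1.1.1, h.1.1.2, h.1.2, h.2]
      norm_num
  have s3 : ∑ᶠ v : (AdmissibleAbsValues.nonarchAbsVal (K := K)), 7 * L v.val =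
      7 * (∑ᶠ v : (AdmissibleAbsValues.nonarchAbsVal (K := K)), Real.posLog (v.val a) +
        ∑ᶠ v : (AdmissibleAbsValues.nonarchAbsVal (K := K)), Real.posLog (v.val b) +
        ∑ᶠ v : (AdmissibleAbsValues.nonarchAbsVal (K := K)), Real.posLog (v.val c) +
        ∑ᶠ v : (AdmissibleAbsValues.nonarchAbsVal (K := K)), Real.posLog (v.val e)) := by
    have f1 : (Function.support fun v : (AdmissibleAbsValues.nonarchAbsVal (K := K)) =>
        Real.posLog (v.val a) + Real.posLog (v.val b)).Finite :=
      ((T8a_support a).union (T8a_support b)).subset (Function.support_add _ _)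
    have f2 : (Function.support fun v : (AdmissibleAbsValues.nonarchAbsVal (K := K)) =>
        Real.posLog (v.val a) + Real.posLog (v.val b) + Real.posLog (v.val c)).Finite :=
      (f1.union (T8a_support c)).subset (Function.support_add _ _)
    rw [← mul_finsum]
    rw [finsum_add_distrib f2 (T8a_support e), finsum_add_distrib f1 (T8a_support c),
      finsum_add_distrib (T8a_support a) (T8a_support b)]
  have s4 : ((AdmissibleAbsValues.archAbsVal (K := K)).map fun v =>
        (7 * L v + -Real.log (7 / 6))).sum =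
      7 * (((AdmissibleAbsValues.archAbsVal (K := K)).map fun v => Real.posLog (v a)).sum +
        ((AdmissibleAbsValues.archAbsVal (K := K)).map fun v => Real.posLog (v b)).sum +
        ((AdmissibleAbsValues.archAbsVal (K := K)).map fun v => Real.posLog (v c)).sum +
        ((AdmissibleAbsValues.archAbsVal (K := K)).map fun v => Real.posLog (v e)).sum) -
      totalWeight K * Real.log (7 / 6) := by
    rw [Multiset.sum_map_add, Multiset.sum_map_mul_left]
    simp only [L]
    rw [Multiset.sum_map_add, Multiset.sum_map_add, Multiset.sum_map_add]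
    simp only [Multiset.map_const', Multiset.sum_replicate, nsmul_eq_mul, totalWeight]
    ring
  rw [logHeight₁_eq a, logHeight₁_eq b, logHeight₁_eq c, logHeight₁_eq e] at hh
  linarith

end Pool.Agent.LibUE49
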