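import Mathlib

set_option autoImplicit false

namespace Pool.Agent.LibUE49

open Polynomial in
private theorem T8b_aux {K : Type} [Field K] {x y : K} (hy : y ≠ 0)
    (s : Finset (K × K)) (hs : ∀ P ∈ s, x * P.1 + y * P.2 = 1) (f : K[X]) (hf : f ≠ 0)
    (hdeg : f.natDegree ≤ 7) (hroot : ∀ P ∈ s, f.eval P.1 = 0) : s.card ≤ 7 := by
  classical
  have hinj : Set.InjOn (Prod.fst : K × K → K) s := by
    intro P hP Q hQ h
    have h1 := hs P hP
    have h2 := hs Q hQ
    refine Prod.ext h ?_
    have h3 : y * P.2 = y * Q.2 := by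
      have h4 : x * P.1 = x * Q.1 := by rw [show P.1 = Q.1 from h]
      linear_combination h1 - h2 - h4
    exact mul_left_cancel₀ hy h3
  rw [← Finset.card_image_of_injOn hinj]
  refine (card_le_degree_of_subset_roots (p := f) ?_).trans hdeg
  intro a ha
  rw [Finset.mem_val, Finset.mem_image] at ha
  obtain ⟨P, hP, rfl⟩ := ha
  rw [mem_roots hf]
  exact hroot P hP

open Polynomial in
/-- A line contains at most seven points `(a,b)` whose seventh powers lie pairwise on a line with
`(1,1)`. -/
theorem card_le_seven {K : Type} [Field K] [CharZero K] {x y : K} (hx : x ≠ 0) (hy : y ≠ 0)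
    (s : Finset (K × K)) (hs : ∀ P ∈ s, x * P.1 + y * P.2 = 1)
    (hs2 : ∀ P ∈ s, ∀ Q ∈ s, (P.1 ^ 7 - 1) * (Q.2 ^ 7 - 1) - (P.2 ^ 7 - 1) * (Q.1 ^ 7 - 1) = 0) :
    s.card ≤ 7 := by
  by_cases hall : ∀ P ∈ s, P.1 ^ 7 - 1 = 0
  · have hf : (X ^ 7 - C 1 : K[X]) ≠ 0 := X_pow_sub_C_ne_zero (by norm_num) 1
    refine T8b_aux hy s hs (X ^ 7 - C 1) hf ?_ fun P hP => ?_
    · rw [natDegree_X_pow_sub_C]
    · simpa using hall P hP
  · push Not at hall
    obtain ⟨P, hP, hP1⟩ := hall
    set α := P.1 ^ 7 - 1 with hα
    set β := P.2 ^ 7 - 1 with hβ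
    have hdl : (C (1 / y) - C (x / y) * X : K[X]).natDegree ≤ 1 := by
      refine (natDegree_sub_le _ _).trans ?_
      rw [natDegree_C]
      exact max_le (by norm_num) ((natDegree_C_mul_le _ _).trans natDegree_X_le)
    refine T8b_aux hy s hs
      (C α * ((C (1 / y) - C (x / y) * X) ^ 7 - C 1) - C β * (X ^ 7 - C 1)) ?_ ?_ fun Q hQ => ?_
    · intro h0
      have h1 := congrArg (fun f => f.derivative.eval 0) h0
      simp only [derivative_sub, derivative_mul, derivative_C, derivative_pow, derivative_X,
        eval_sub, eval_mul, eval_C, eval_pow, eval_X, eval_add, eval_zero,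
        map_zero, zero_mul, mul_zero, zero_add, sub_zero, add_zero, zero_sub] at h1
      norm_num at h1
      rcases h1 with h1 | h1
      · exact hP1 h1
      · rcases h1 with h1 | h1
        · exact hy h1
        · rcases h1 with h1 | h1
          · exact hx h1
          · exact hy h1
    · refine (natDegree_sub_le _ _).trans (max_le ?_ ?_)
      · refine (natDegree_C_mul_le _ _).trans ((natDegree_sub_le _ _).trans (max_le ?_ ?_))
        · exact (natDegree_pow_le).trans (by omega)
        · rw [natDegree_C]; norm_num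
      · refine (natDegree_C_mul_le _ _).trans ?_
        rw [natDegree_X_pow_sub_C]
    · have h1 := hs2 P hP Q hQ
      have h2 : 1 / y - x / y * Q.1 = Q.2 := by
        have h3 := hs Q hQ
        field_simp
        linear_combination -h3
      simp only [eval_sub, eval_mul, eval_C, eval_pow, eval_X]
      rw [h2]
      exact h1

end Pool.Agent.LibUE49
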