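import Pool.Agent.LibUE49.T5

set_option autoImplicit false
open Height

namespace Pool.Agent.LibUE49

/-- `x` and `1 - x` lie in the division group of the group generated by `g`. -/
def IsSol {F : Type} [Field F] {r : ℕ} (g : Fin r → Fˣ) (x : F) : Prop :=
  x ≠ 0 ∧ 1 - x ≠ 0 ∧ ∃ n : ℕ, 0 < n ∧ ∃ a b : Fin r → ℤ,
    x ^ n = ((∏ j, g j ^ a j : Fˣ) : F) ∧ (1 - x) ^ n = ((∏ j, g j ^ b j : Fˣ) : F)

theorem T9a_norm {K : Type} [Field K] [NumberField K] {r : ℕ} (g : Fin r → Kˣ)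
    (p : Seminorm ℝ (Fin r → ℝ))
    (hp : ∀ a : Fin r → ℤ, p (fun j => (a j : ℝ)) = logHeight₁ (((∏ j, g j ^ a j : Kˣ)) : K))
    {w : K} {N : ℕ} (hN : 0 < N) {c : Fin r → ℤ} (h : w ^ N = ((∏ j, g j ^ c j : Kˣ) : K))
    {v : Fin r → ℝ} (hv : ∀ j, v j = (c j : ℝ) / N) : p v = logHeight₁ w := by
  have hN' : (0 : ℝ) < N := by exact_mod_cast hN
  have h1 : v = (N : ℝ)⁻¹ • (fun j => (c j : ℝ)) := by
    ext j
    simp [hv, div_eq_inv_mul]
  rw [h1, map_smul_eq_mul, hp, ← h, logHeight₁_pow, Real.norm_eq_abs,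
    abs_of_pos (inv_pos.mpr hN')]
  field_simp

theorem T9a_quot {K : Type} [Field K] {r : ℕ} (g : Fin r → Kˣ) {x z : K} {n n' : ℕ}
    {a a' : Fin r → ℤ} (h : x ^ n = ((∏ j, g j ^ a j : Kˣ) : K))
    (h' : z ^ n' = ((∏ j, g j ^ a' j : Kˣ) : K)) (m : ℕ) :
    (z / x ^ m) ^ (n * n') = ((∏ j, g j ^ ((n : ℤ) * a' j - m * n' * a j) : Kˣ) : K) := by
  have h1 : (∏ j, g j ^ ((n : ℤ) * a' j - m * n' * a j) : Kˣ) =
      (∏ j, g j ^ a' j) ^ n / (∏ j, g j ^ a j) ^ (m * n') := by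
    rw [← Finset.prod_pow, ← Finset.prod_pow, ← Finset.prod_div_distrib]
    refine Finset.prod_congr rfl fun j _ => ?_
    rw [zpow_sub, ← zpow_natCast, ← zpow_natCast, ← zpow_mul, ← zpow_mul, div_eq_mul_inv]
    congr 2
    · ring
    · push_cast; ring_nf
  rw [h1, Units.val_div_eq_div_val, Units.val_pow_eq_pow_val, Units.val_pow_eq_pow_val, ← h, ← h',
    div_pow, ← pow_mul, ← pow_mul, ← pow_mul]
  congr 1
  · ring
  · ring

/-- A seminorm on `ℝ^{2r}` together with vectors attached to the solutions, such that heights of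
quotients are seminorms of differences. -/
theorem exists_vectors {K : Type} [Field K] [NumberField K] {r : ℕ} (g : Fin r → Kˣ) :
    ∃ (P : Seminorm ℝ ((Fin r → ℝ) × (Fin r → ℝ))) (L : K → (Fin r → ℝ) × (Fin r → ℝ)),
      (∀ x, IsSol g x → P (L x) = logHeight₁ x + logHeight₁ (1 - x)) ∧
      ∀ x z, IsSol g x → IsSol g z → ∀ m : ℕ,
        P (L z - (m : ℝ) • L x) = logHeight₁ (z / x ^ m) + logHeight₁ ((1 - z) / (1 - x) ^ m) := by
  classical
  obtain ⟨p, hp⟩ := exists_seminorm g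
  have hex : ∀ x : K, ∃ v : (Fin r → ℝ) × (Fin r → ℝ), IsSol g x →
      ∃ n : ℕ, 0 < n ∧ ∃ a b : Fin r → ℤ,
        x ^ n = ((∏ j, g j ^ a j : Kˣ) : K) ∧ (1 - x) ^ n = ((∏ j, g j ^ b j : Kˣ) : K) ∧
        (∀ j, v.1 j = (a j : ℝ) / n) ∧ ∀ j, v.2 j = (b j : ℝ) / n := by
    intro x
    by_cases hx : IsSol g x
    · obtain ⟨-, -, n, hn, a, b, ha, hb⟩ := hx
      exact ⟨(fun j => (a j : ℝ) / n, fun j => (b j : ℝ) / n),
        fun _ => ⟨n, hn, a, b, ha, hb, fun _ => rfl, fun _ => rfl⟩⟩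
    · exact ⟨0, fun h => absurd h hx⟩
  choose L hL using hex
  refine ⟨p.comp (LinearMap.fst ℝ _ _) + p.comp (LinearMap.snd ℝ _ _), L, ?_, ?_⟩
  · intro x hx
    obtain ⟨n, hn, a, b, ha, hb, h1, h2⟩ := hL x hx
    change p (L x).1 + p (L x).2 = _
    rw [T9a_norm g p hp hn ha h1, T9a_norm g p hp hn hb h2]
  · intro x z hx hz m
    obtain ⟨n, hn, a, b, ha, hb, h1, h2⟩ := hL x hx
    obtain ⟨n', hn', a', b', ha', hb', h1', h2'⟩ := hL z hz
    have hnR : (n : ℝ) ≠ 0 := by exact_mod_cast hn.ne'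
    have hnR' : (n' : ℝ) ≠ 0 := by exact_mod_cast hn'.ne'
    change p (L z - (m : ℝ) • L x).1 + p (L z - (m : ℝ) • L x).2 = _
    rw [T9a_norm g p hp (Nat.mul_pos hn hn') (T9a_quot g ha ha' m),
      T9a_norm g p hp (Nat.mul_pos hn hn') (T9a_quot g hb hb' m)]
    · intro j
      simp only [Prod.snd_sub, Prod.smul_snd, Pi.sub_apply, Pi.smul_apply, smul_eq_mul]
      rw [h2 j, h2' j]
      push_cast
      field_simp
    · intro j
      simp only [Prod.fst_sub, Prod.smul_fst, Pi.sub_apply, Pi.smul_apply, smul_eq_mul]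
      rw [h1 j, h1' j]
      push_cast
      field_simp

end Pool.Agent.LibUE49
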