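import Pool.Agent.LibUE49.T7a
import Pool.Agent.LibUE49.T8a
import Pool.Agent.LibUE49.T8b
import Pool.Agent.LibUE49.T9a

set_option autoImplicit false
open Height

namespace Pool.Agent.LibUE49

private theorem T9c_log : (0.154 : ℝ) < Real.log (7 / 6) := by
  rw [Real.lt_log_iff_exp_lt (by norm_num)]
  have h := Real.exp_bound' (x := 0.154) (by norm_num) (by norm_num) (n := 5) (by norm_num)
  refine h.trans_lt ?_
  norm_num [Finset.sum_range_succ, Nat.factorial]

private theorem T9c_close {K : Type} [Field K] [NumberField K] {r : ℕ} (g : Fin r → Kˣ) (x : K)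
    (hx : IsSol g x) (t : Finset K)
    (hc : ∀ z ∈ t, logHeight₁ (z / x) + logHeight₁ ((1 - z) / (1 - x)) <
      0.011 * (totalWeight K : ℝ)) : t.card ≤ 7 := by
  classical
  have hx0 := hx.1
  have hx1 := hx.2.1
  have hinj : Set.InjOn (fun z : K => (z / x, (1 - z) / (1 - x))) t := by
    intro z _ z' _ h
    have h1 := congrArg Prod.fst h
    exact (div_left_inj' hx0).1 h1
  rw [← Finset.card_image_of_injOn hinj]
  refine card_le_seven hx0 hx1 _ ?_ ?_
  · intro P hP
    obtain ⟨z, _, rfl⟩ := Finset.mem_image.1 hP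
    change x * (z / x) + (1 - x) * ((1 - z) / (1 - x)) = 1
    rw [mul_div_cancel₀ _ hx0, mul_div_cancel₀ _ hx1]
    ring
  · intro P hP Q hQ
    obtain ⟨z, hz, rfl⟩ := Finset.mem_image.1 hP
    obtain ⟨w, hw, rfl⟩ := Finset.mem_image.1 hQ
    refine det_pow_eq_zero ?_ ?_
    · change (z / x - 1) * ((1 - w) / (1 - x) - 1) - ((1 - z) / (1 - x) - 1) * (w / x - 1) = 0
      field_simp
      ring
    · have h1 := hc z hz
      have h2 := hc w hw
      have h3 := T9c_log
      have h4 : (0 : ℝ) ≤ (totalWeight K : ℝ) := Nat.cast_nonneg _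
      change 7 * (logHeight₁ (z / x) + logHeight₁ ((1 - z) / (1 - x)) + logHeight₁ (w / x) +
        logHeight₁ ((1 - w) / (1 - x))) < totalWeight K * Real.log (7 / 6)
      nlinarith [mul_le_mul_of_nonneg_left h3.le h4]

/-- Small solutions over a number field. -/
theorem card_small {K : Type} [Field K] [NumberField K] {r : ℕ} (g : Fin r → Kˣ) (s : Finset K)
    (hs : ∀ x ∈ s, IsSol g x)
    (hl : ∀ x ∈ s, logHeight₁ x + logHeight₁ (1 - x) < 70 * (totalWeight K : ℝ)) :
    (s.card : ℝ) ≤ 7 * 12729 ^ (2 * r) := by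
  classical
  obtain ⟨P, L, hP, hQ⟩ := exists_vectors g
  have hd : (0 : ℝ) < (totalWeight K : ℝ) := by
    exact_mod_cast NumberField.totalWeight_pos K
  have hcov := covering P s L (R := 70 * (totalWeight K : ℝ)) (δ := 0.011 * (totalWeight K : ℝ))
    (by positivity) (by positivity)
    (fun x hx => by rw [hP x (hs x hx)]; exact (hl x hx).le) 7
    (by
      intro x hx t hts ht
      refine T9c_close g x (hs x hx) t ?_
      intro z hz
      have h1 := ht z hz
      have h2 := hQ x z (hs x hx) (hs z (hts hz)) 1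
      rw [Nat.cast_one, one_smul, pow_one, pow_one] at h2
      rw [← h2]
      exact h1)
  have hfr : Module.finrank ℝ ((Fin r → ℝ) × (Fin r → ℝ)) = 2 * r := by
    rw [Module.finrank_prod, Module.finrank_fin_fun]
    ring
  rw [hfr] at hcov
  refine hcov.trans ?_
  have h5 : (1 + 2 * (70 * (totalWeight K : ℝ)) / (0.011 * (totalWeight K : ℝ))) ≤ 12729 := by
    have : 2 * (70 * (totalWeight K : ℝ)) / (0.011 * (totalWeight K : ℝ)) = 140 / 0.011 := by
      field_simp
      norm_num
    rw [this]
    norm_num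
  have h6 : (0 : ℝ) ≤ 1 + 2 * (70 * (totalWeight K : ℝ)) / (0.011 * (totalWeight K : ℝ)) := by
    positivity
  have h7 := pow_le_pow_left₀ h6 h5 (2 * r)
  push_cast
  linarith

end Pool.Agent.LibUE49
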