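import Pool.Agent.LibUE49.T9b
import Pool.Agent.LibUE49.T9c

set_option autoImplicit false
open Height

namespace Pool.Agent.LibUE49

/-- The unit equation over a number field, with a bound depending only on the rank. -/
theorem card_le_numberField {K : Type} [Field K] [NumberField K] {r : ℕ} (g : Fin r → Kˣ)
    (s : Finset K) (hs : ∀ x ∈ s, IsSol g x) : s.card ≤ 2 ^ (28 * r + 5) := by
  classical
  have h1 := card_large g (s.filter fun x => 70 * (totalWeight K : ℝ) ≤
    logHeight₁ x + logHeight₁ (1 - x)) (fun x hx => hs x (Finset.mem_filter.1 hx).1)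
    (fun x hx => (Finset.mem_filter.1 hx).2)
  have h2 := card_small g (s.filter fun x => ¬ 70 * (totalWeight K : ℝ) ≤
    logHeight₁ x + logHeight₁ (1 - x)) (fun x hx => hs x (Finset.mem_filter.1 hx).1)
    (fun x hx => not_le.1 (Finset.mem_filter.1 hx).2)
  have h3 := Finset.card_filter_add_card_filter_not (s := s)
    (fun x => 70 * (totalWeight K : ℝ) ≤ logHeight₁ x + logHeight₁ (1 - x))
  have h4 : ((s.card : ℕ) : ℝ) ≤ 2 ^ (28 * r + 5) := by
    rw [← h3]
    push_cast
    have e1 : (51 : ℝ) ^ (2 * r) ≤ 2 ^ (28 * r) := by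
      rw [pow_mul, pow_mul]
      exact pow_le_pow_left₀ (by norm_num) (by norm_num) _
    have e2 : (12729 : ℝ) ^ (2 * r) ≤ 2 ^ (28 * r) := by
      rw [pow_mul, pow_mul]
      exact pow_le_pow_left₀ (by norm_num) (by norm_num) _
    calc _ ≤ (18 : ℝ) * 51 ^ (2 * r) + 7 * 12729 ^ (2 * r) := add_le_add h1 h2
      _ ≤ 18 * 2 ^ (28 * r) + 7 * 2 ^ (28 * r) := by gcongr
      _ ≤ 2 ^ (28 * r + 5) := by
          rw [pow_add]
          nlinarith [show (0:ℝ) ≤ 2 ^ (28 * r) by positivity]
  exact_mod_cast h4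

end Pool.Agent.LibUE49
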