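import Pool.Agent.LibUE49.T4
import Pool.Agent.LibUE49.T7b
import Pool.Agent.LibUE49.T9a

set_option autoImplicit false
open Height

namespace Pool.Agent.LibUE49

private theorem T9b_ne {K : Type} [Field K] [NumberField K] {x : K}
    (h : 0 < logHeight₁ x + logHeight₁ (1 - x)) : x ^ 2 - x + 1 ≠ 0 := by
  intro h0
  have h1 : x ^ 6 = 1 := by
    linear_combination (x ^ 4 + x ^ 3 - x - 1) * h0
  have h2 : (1 - x) ^ 6 = 1 := by
    have h3 : 1 - x = -x ^ 2 := by linear_combination h0
    rw [h3]
    linear_combination (x ^ 6 + 1) * h1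
  rw [logHeight₁_eq_zero_of_pow (by norm_num) h1, logHeight₁_eq_zero_of_pow (by norm_num) h2] at h
  norm_num at h

/-- Large solutions over a number field. -/
theorem card_large {K : Type} [Field K] [NumberField K] {r : ℕ} (g : Fin r → Kˣ) (s : Finset K)
    (hs : ∀ x ∈ s, IsSol g x)
    (hl : ∀ x ∈ s, 70 * (totalWeight K : ℝ) ≤ logHeight₁ x + logHeight₁ (1 - x)) :
    (s.card : ℝ) ≤ 18 * 51 ^ (2 * r) := by
  obtain ⟨P, L, hP1, hP2⟩ := exists_vectors g
  have hd : (0 : ℝ) < totalWeight K := by
    have := NumberField.totalWeight_pos K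
    exact_mod_cast this
  have hlog : Real.log 2 < 0.6931471808 := Real.log_two_lt_d9
  have hlog0 : 0 < Real.log 2 := Real.log_pos (by norm_num)
  have hdl : (totalWeight K : ℝ) * Real.log 2 ≤ totalWeight K * 0.6931471808 :=
    mul_le_mul_of_nonneg_left hlog.le hd.le
  have hdl0 : 0 ≤ (totalWeight K : ℝ) * Real.log 2 := by positivity
  have hrank : Module.finrank ℝ ((Fin r → ℝ) × (Fin r → ℝ)) = 2 * r := by
    rw [Module.finrank_prod, Module.finrank_fin_fun]
    ring
  have key := large P s L (fun x hx => ?_) (fun x hx z hz hxz => ?_) (fun x hx z hz hxz N => ?_)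
  · rwa [hrank] at key
  · rw [hP1 x (hs x hx)]
    have := hl x hx
    linarith
  · have hx1 := hs x hx
    have hz1 := hs z hz
    rw [hP1 x hx1]
    have h1 := hP2 x z hx1 hz1 1
    simp only [Nat.cast_one, one_smul, pow_one] at h1
    rw [h1]
    have h2 := gap_zero hx1.1 hx1.2.1 (Ne.symm hxz)
    have h3 := logHeight₁_one_sub_le x
    have h4 := hl x hx
    linarith
  · have hx1 := hs x hx
    have hz1 := hs z hz
    rw [hP1 x hx1, hP2 x z hx1 hz1]
    have h4 := hl x hx
    set H := logHeight₁ x + logHeight₁ (1 - x) with hH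
    have hH0 : 0 < H := by linarith
    set Q := logHeight₁ (z / x ^ (2 * N + 1)) + logHeight₁ ((1 - z) / (1 - x) ^ (2 * N + 1))
      with hQ
    have hQ0 : 0 ≤ Q := add_nonneg (zero_le_logHeight₁ _) (zero_le_logHeight₁ _)
    rcases Nat.lt_or_ge N 3 with hN | hN
    · have hN' : (N : ℝ) ≤ 2 := by exact_mod_cast (by omega : N ≤ 2)
      have h5 : (0.4 * (N : ℝ) - 1.2) * H ≤ 0 := by
        refine mul_nonpos_of_nonpos_of_nonneg ?_ hH0.le
        linarith
      linarith
    · have hN' : (3 : ℝ) ≤ N := by exact_mod_cast hN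
      have h2 := gap (z := z) hx1.1 hx1.2.1 (T9b_ne hH0) N
      have h3 := logHeight₁_one_sub_le x
      rw [← hQ] at h2
      have h6 : ((N : ℝ) - 2) * ((H - totalWeight K * Real.log 2) / 2) ≤
          ((N : ℝ) - 2) * logHeight₁ x := by
        refine mul_le_mul_of_nonneg_left ?_ (by linarith)
        linarith
      have h7 : (totalWeight K : ℝ) * Real.log 2 ≤ 0.00991 * H := by linarith
      have h8 : (totalWeight K : ℝ) * Real.log 2 * (6.5 * N + 9) ≤ 0.00991 * H * (6.5 * N + 9) :=
        mul_le_mul_of_nonneg_right h7 (by linarith)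
      have h9 : ((N : ℝ) - 2) * ((H - totalWeight K * Real.log 2) / 2) -
          totalWeight K * ((6 * N + 10) * Real.log 2) =
          (N / 2 - 1) * H - (totalWeight K : ℝ) * Real.log 2 * (6.5 * N + 9) := by ring
      have h10 : (0.4 * (N : ℝ) - 1.2) * H ≤ (N / 2 - 1) * H - 0.00991 * H * (6.5 * N + 9) := by
        have h11 : (N / 2 - 1) * H - 0.00991 * H * (6.5 * N + 9) - (0.4 * (N : ℝ) - 1.2) * H =
            H * (0.035585 * N + 0.11081) := by ring
        have h12 : 0 ≤ H * (0.035585 * N + 0.11081) := by positivity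
        linarith
      linarith

end Pool.Agent.LibUE49
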